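import Mathlib

set_option autoImplicit false

/-! Ky Fan's combinatorial lemma on the round sphere, through chains mod 2, and the
Borsuk-Ulam theorem. The chain operators `dd`, `pz` follow the file `Kuhn` of `MP_74e69a_co`. -/

namespace Pool.Agent.Lib.MP_fcccf2_gt

open Finset

section chains

variable {P : Type}

/-- Coboundary, evaluated on a tuple. -/
def dd : List P → (List P → ZMod 2) → ZMod 2
  | [], _ => 0
  | v :: σ, φ => φ σ + dd σ (fun τ => φ (v :: τ))

/-- Prism operator, evaluated on a tuple. -/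
def pz (a b : P → P) : List P → (List P → ZMod 2) → ZMod 2
  | [], _ => 0
  | v :: σ, φ => φ (a v :: b v :: σ.map b) + pz a b σ (fun τ => φ (a v :: τ))

lemma z2 (x : ZMod 2) : x + x = 0 := by revert x; decide

lemma dd_add (σ : List P) : ∀ φ ψ : List P → ZMod 2,
    dd σ (fun τ => φ τ + ψ τ) = dd σ φ + dd σ ψ := by
  induction σ with
  | nil => intro φ ψ; simp [dd]
  | cons v σ ih => intro φ ψ; simp only [dd, ih]; ring

lemma dd_mul (c : ZMod 2) (σ : List P) : ∀ φ : List P → ZMod 2,
    dd σ (fun τ => c * φ τ) = c * dd σ φ := by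
  induction σ with
  | nil => intro φ; simp [dd]
  | cons v σ ih => intro φ; simp only [dd, ih]; ring

lemma dd_map {Q : Type} (b : P → Q) (σ : List P) : ∀ φ : List Q → ZMod 2,
    dd (σ.map b) φ = dd σ (fun τ => φ (τ.map b)) := by
  induction σ with
  | nil => intro φ; simp [dd]
  | cons v σ ih => intro φ; simp only [dd, List.map_cons, ih]

lemma dd_congr (σ : List P) : ∀ φ ψ : List P → ZMod 2,
    (∀ τ : List P, (∀ z ∈ τ, z ∈ σ) → φ τ = ψ τ) → dd σ φ = dd σ ψ := by
  induction σ with
  | nil => intro φ ψ _; rfl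
  | cons v σ ih =>
    intro φ ψ h
    simp only [dd]
    rw [h σ (fun z hz => by simp [hz]), ih (fun τ => φ (v :: τ)) (fun τ => ψ (v :: τ))]
    intro τ hτ
    refine h _ fun z hz => ?_
    rcases List.mem_cons.1 hz with e | e
    · simp [e]
    · simp [hτ z e]

lemma pz_add (a b : P → P) (σ : List P) : ∀ φ ψ : List P → ZMod 2,
    pz a b σ (fun τ => φ τ + ψ τ) = pz a b σ φ + pz a b σ ψ := by
  induction σ with
  | nil => intro φ ψ; simp [pz]
  | cons v σ ih => intro φ ψ; simp only [pz, ih]; ring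

lemma pz_dd (a b : P → P) (σ : List P) : ∀ φ : List P → ZMod 2,
    pz a b σ (fun τ => dd τ φ) = φ (σ.map b) + φ (σ.map a) + dd σ (fun τ => pz a b τ φ) := by
  induction σ with
  | nil => intro φ; simp [pz, dd, z2]
  | cons v σ ih =>
    intro φ
    simp only [pz, dd, pz_add, dd_add, ih, dd_map, List.map_cons]
    have := z2 (φ (a v :: σ.map b))
    linear_combination this

lemma pz_eq_zero (a b : P → P) (σ : List P) : ∀ φ : List P → ZMod 2,
    (∀ τ : List P, τ.length = σ.length + 1 → (∀ z ∈ τ, ∃ v ∈ σ, z = a v ∨ z = b v) → φ τ = 0) →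
      pz a b σ φ = 0 := by
  induction σ with
  | nil => intro φ _; rfl
  | cons v σ ih =>
    intro φ h
    simp only [pz]
    rw [h, ih, add_zero]
    · intro τ hl hτ
      refine h _ (by simp [hl]) fun z hz => ?_
      rcases List.mem_cons.1 hz with e | e
      · exact ⟨v, by simp, Or.inl e⟩
      · obtain ⟨w, hw, e⟩ := hτ z e
        exact ⟨w, by simp [hw], e⟩
    · simp
    · intro z hz
      simp only [List.mem_cons, List.mem_map] at hz
      rcases hz with e | e | ⟨w, hw, e⟩
      · exact ⟨v, by simp, Or.inl e⟩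
      · exact ⟨v, by simp, Or.inr e⟩
      · exact ⟨w, by simp [hw], Or.inr e.symm⟩

/-- Insertion into a list sorted by `μ`. -/
noncomputable def ins (μ : P → ℝ) (v : P) : List P → List P
  | [] => [v]
  | w :: ρ => if μ v ≤ μ w then v :: w :: ρ else w :: ins μ v ρ

/-- Stable insertion sort by `μ`. -/
noncomputable def srt (μ : P → ℝ) : List P → List P
  | [] => []
  | v :: σ => ins μ v (srt μ σ)

lemma ins_perm (μ : P → ℝ) (v : P) (ρ : List P) : (ins μ v ρ).Perm (v :: ρ) := by
  induction ρ with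
  | nil => simp [ins]
  | cons w ρ ih =>
    simp only [ins]
    split_ifs
    · exact List.Perm.refl _
    · exact (ih.cons w).trans (List.Perm.swap v w ρ)

lemma srt_perm (μ : P → ℝ) (σ : List P) : (srt μ σ).Perm σ := by
  induction σ with
  | nil => simp [srt]
  | cons v σ ih => exact (ins_perm μ v _).trans (ih.cons v)

lemma ins_sorted (μ : P → ℝ) (v : P) (ρ : List P) (h : ρ.Pairwise fun a b => μ a ≤ μ b) :
    (ins μ v ρ).Pairwise fun a b => μ a ≤ μ b := by
  induction ρ with
  | nil => simp [ins]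
  | cons w ρ ih =>
    simp only [ins]
    obtain ⟨h1, h2⟩ := List.pairwise_cons.1 h
    split_ifs with hv
    · refine List.pairwise_cons.2 ⟨fun z hz => ?_, h⟩
      rcases List.mem_cons.1 hz with e | e
      · rw [e]; exact hv
      · exact hv.trans (h1 z e)
    · refine List.pairwise_cons.2 ⟨fun z hz => ?_, ih h2⟩
      rcases List.mem_cons.1 ((ins_perm μ v ρ).mem_iff.1 hz) with e | e
      · rw [e]; exact (not_le.1 hv).le
      · exact h1 z e

lemma srt_sorted (μ : P → ℝ) (σ : List P) : (srt μ σ).Pairwise fun a b => μ a ≤ μ b := by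
  induction σ with
  | nil => simp [srt]
  | cons v σ ih => exact ins_sorted μ v _ ih

lemma ins_of_le (μ : P → ℝ) (v : P) (τ : List P) (h : ∀ z ∈ τ, μ v ≤ μ z) :
    ins μ v τ = v :: τ := by
  cases τ with
  | nil => rfl
  | cons w τ => simp [ins, h w (by simp)]

lemma dd_ins (μ : P → ℝ) (v : P) (ρ : List P) (h : ρ.Pairwise fun a b => μ a ≤ μ b) :
    ∀ A : List P → ZMod 2, dd (ins μ v ρ) A = A ρ + dd ρ (fun τ => A (ins μ v τ)) := by
  induction ρ with
  | nil => intro A; simp [ins, dd]
  | cons w ρ ih =>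
    intro A
    obtain ⟨h1, h2⟩ := List.pairwise_cons.1 h
    by_cases hv : μ v ≤ μ w
    · rw [ins, if_pos hv]
      have : dd (w :: ρ) (fun τ => A (ins μ v τ)) = dd (w :: ρ) (fun τ => A (v :: τ)) := by
        refine dd_congr _ _ _ fun τ hτ => ?_
        rw [ins_of_le]
        intro z hz
        rcases List.mem_cons.1 (hτ z hz) with e | e
        · rw [e]; exact hv
        · exact hv.trans (h1 z e)
      rw [this]
      rfl
    · rw [ins, if_neg hv]
      simp only [dd, ih h2, ins, if_neg hv]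
      ring

lemma dd_srt (μ : P → ℝ) (σ : List P) : ∀ A : List P → ZMod 2,
    dd σ (fun τ => A (srt μ τ)) = dd (srt μ σ) A := by
  induction σ with
  | nil => intro A; rfl
  | cons v σ ih =>
    intro A
    simp only [dd, srt]
    rw [dd_ins μ v _ (srt_sorted μ σ), ← ih]

lemma ins_map (μ : P → ℝ) (ν : P → P) (hν : ∀ x, μ (ν x) = μ x) (v : P) (ρ : List P) :
    ins μ (ν v) (ρ.map ν) = (ins μ v ρ).map ν := by
  induction ρ with
  | nil => rfl
  | cons w ρ ih =>
    simp only [List.map_cons, ins, hν]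
    split_ifs
    · rfl
    · simp [ih]

lemma srt_map (μ : P → ℝ) (ν : P → P) (hν : ∀ x, μ (ν x) = μ x) (σ : List P) :
    srt μ (σ.map ν) = (srt μ σ).map ν := by
  induction σ with
  | nil => rfl
  | cons v σ ih => simp only [List.map_cons, srt, ih, ins_map μ ν hν]

/-- Indicator of the lists whose signs alternate, starting with `b`. -/
def alt (s : P → Bool) : Bool → List P → ZMod 2
  | _, [] => 1
  | b, v :: τ => (if s v = b then 1 else 0) * alt s (!b) τ

lemma dd_alt (s : P → Bool) (σ : List P) : ∀ b : Bool,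
    dd σ (alt s b) = alt s b σ + alt s (!b) σ := by
  induction σ with
  | nil => intro b; simp [dd, alt, z2]
  | cons v σ ih =>
    intro b
    simp only [dd, alt, dd_mul, ih, Bool.not_not]
    have h1 := z2 (alt s b σ)
    cases b <;> cases s v <;> simp <;> linear_combination h1

lemma alt_map (s : P → Bool) (ν : P → P) (τ : List P) (h : ∀ z ∈ τ, s (ν z) = !s z) :
    ∀ b : Bool, alt s b (τ.map ν) = alt s (!b) τ := by
  induction τ with
  | nil => intro b; rfl
  | cons v τ ih =>
    intro b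
    simp only [List.map_cons, alt, ih (fun z hz => h z (by simp [hz])), h v (by simp)]
    cases b <;> cases s v <;> simp

lemma alt_chain (s : P → Bool) (τ : List P) : ∀ b : Bool, alt s b τ ≠ 0 →
    τ.IsChain (fun x y => s x ≠ s y) ∧ ∀ v ∈ τ.head?, s v = b := by
  induction τ with
  | nil => intro b _; simp
  | cons v τ ih =>
    intro b h
    simp only [alt] at h
    have hv : s v = b := by
      by_contra hh
      simp [hh] at h
    have h2 : alt s (!b) τ ≠ 0 := by
      intro hh
      simp [hh] at h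
    obtain ⟨h3, h4⟩ := ih _ h2
    refine ⟨?_, by simp [hv]⟩
    cases τ with
    | nil => simp
    | cons w τ =>
      refine List.IsChain.cons_cons ?_ h3
      rw [hv, h4 w (by simp)]
      cases b <;> simp

end chains

/-- Euclidean space of dimension `n`. -/
abbrev E (n : ℕ) := EuclideanSpace ℝ (Fin n)

/-- Small tuples of length `k + 1` on the unit sphere of the first `k + 1` coordinates. -/
def Good (n k : ℕ) (η : ℝ) (τ : List (E n)) : Prop :=
  τ.length = k + 1 ∧ (∀ z ∈ τ, ‖z‖ = 1 ∧ ∀ j : Fin n, k < j.val → z j = 0) ∧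
    ∀ z ∈ τ, ∀ w ∈ τ, dist z w ≤ η

/-- The rotation of `x` towards `e`. -/
noncomputable def rot {n : ℕ} (e : E n) (t : ℝ) (x : E n) : E n :=
  Real.cos t • x + Real.sin t • e

lemma rot_dist {n : ℕ} (e x y : E n) (he : ‖e‖ = 1) (hy : ‖y‖ = 1) (s t : ℝ) :
    dist (rot e s x) (rot e t y) ≤ dist x y + 2 * |s - t| := by
  have h1 : rot e s x - rot e t y =
      Real.cos s • (x - y) + ((Real.cos s - Real.cos t) • y + (Real.sin s - Real.sin t) • e) := by
    simp only [rot, smul_sub, sub_smul]; abel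
  rw [dist_eq_norm, dist_eq_norm, h1]
  have h2 : ‖Real.cos s • (x - y)‖ ≤ ‖x - y‖ := by
    rw [norm_smul]
    exact mul_le_of_le_one_left (norm_nonneg _) (by simpa using Real.abs_cos_le_one s)
  have h3 : ‖(Real.cos s - Real.cos t) • y‖ ≤ |s - t| := by
    rw [norm_smul, hy, mul_one]; exact Real.abs_cos_sub_cos_le s t
  have h4 : ‖(Real.sin s - Real.sin t) • e‖ ≤ |s - t| := by
    rw [norm_smul, he, mul_one]; exact Real.abs_sin_sub_sin_le s t
  have h5 := norm_add_le (Real.cos s • (x - y))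
    ((Real.cos s - Real.cos t) • y + (Real.sin s - Real.sin t) • e)
  have h6 := norm_add_le ((Real.cos s - Real.cos t) • y) ((Real.sin s - Real.sin t) • e)
  linarith

lemma rot_norm {n : ℕ} (j : Fin n) (x : E n) (hx : ‖x‖ = 1) (hj : x j = 0) (t : ℝ) :
    ‖rot (EuclideanSpace.single j (1 : ℝ)) t x‖ = 1 := by
  have h0 : inner ℝ (Real.cos t • x) (Real.sin t • EuclideanSpace.single j (1 : ℝ)) = 0 := by
    simp [inner_smul_left, inner_smul_right, EuclideanSpace.inner_single_right, hj]
  have h1 := norm_add_sq_real (Real.cos t • x) (Real.sin t • EuclideanSpace.single j (1 : ℝ))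
  rw [h0, norm_smul, norm_smul, hx] at h1
  simp only [Real.norm_eq_abs, mul_one, sq_abs, PiLp.norm_single, norm_one, mul_zero,
    add_zero] at h1
  have h2 : ‖rot (EuclideanSpace.single j (1 : ℝ)) t x‖ ^ 2 = 1 := by
    rw [rot, h1, Real.cos_sq_add_sin_sq]
  have h3 := norm_nonneg (rot (EuclideanSpace.single j (1 : ℝ)) t x)
  nlinarith

lemma exists_chain (n : ℕ) (s : E n → Bool) (μ : E n → ℝ) (hs : ∀ x, ‖x‖ = 1 → s (-x) = !s x)
    (hμ : ∀ x, μ (-x) = μ x) (k : ℕ) : k < n → ∀ η : ℝ, 0 < η →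
    ∃ C : (List (E n) → ZMod 2) → ZMod 2,
      (∀ φ ψ, C (fun τ => φ τ + ψ τ) = C φ + C ψ) ∧
      (∀ φ, (∀ τ, Good n k η τ → φ τ = 0) → C φ = 0) ∧
      (∀ φ, C (fun τ => dd τ φ) + C (fun τ => dd (τ.map Neg.neg) φ) = 0) ∧
      C (fun τ => alt s true (srt μ τ)) + C (fun τ => alt s false (srt μ τ)) = 1 := by
  induction k with
  | zero =>
    intro hk η hη
    refine ⟨fun φ => φ [EuclideanSpace.single ⟨0, hk⟩ (1 : ℝ)], fun _ _ => rfl, ?_, ?_, ?_⟩
    · intro φ h
      refine h _ ⟨rfl, ?_, ?_⟩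
      · intro z hz
        rw [List.mem_singleton.1 hz]
        refine ⟨by simp, fun j hj => ?_⟩
        have : j ≠ ⟨0, hk⟩ := by intro e; rw [e] at hj; simp at hj
        simp [this]
      · intro z hz w hw
        rw [List.mem_singleton.1 hz, List.mem_singleton.1 hw]
        simp [hη.le]
    · intro φ
      simp [dd, z2]
    · simp only [srt, ins, alt]
      cases s (EuclideanSpace.single ⟨0, hk⟩ (1 : ℝ)) <;> simp
  | succ k ih =>
    intro hk η hη
    obtain ⟨C, Cadd, Csupp, Ccyc, Cinv⟩ := ih (by omega) (η / 2) (by linarith)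
    have Ccongr : ∀ φ ψ, (∀ τ, Good n k (η / 2) τ → φ τ = ψ τ) → C φ = C ψ := by
      intro φ ψ h
      have h1 := Csupp (fun τ => φ τ + ψ τ) (fun τ hτ => by rw [h τ hτ, z2])
      rw [Cadd] at h1
      have h2 := z2 (C ψ)
      linear_combination h1 - h2
    obtain ⟨N, hN⟩ := exists_nat_gt (2 * Real.pi / η)
    have hN0 : (0 : ℝ) < N := lt_trans (by positivity) hN
    set e : E n := EuclideanSpace.single ⟨k + 1, hk⟩ (1 : ℝ) with he
    have hen : ‖e‖ = 1 := by simp [he]
    let h : ℕ → E n → E n := fun j => rot e (j * (Real.pi / (2 * N)))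
    have h0 : h 0 = id := by funext x; simp [h, rot]
    have hNN : h N = fun _ => e := by
      funext x
      have : (N : ℝ) * (Real.pi / (2 * N)) = Real.pi / 2 := by field_simp
      simp [h, rot, this]
    let Z : (List (E n) → ZMod 2) → ZMod 2 := fun φ => C φ + C (fun τ => φ (τ.map Neg.neg))
    have Zadd : ∀ φ ψ, Z (fun τ => φ τ + ψ τ) = Z φ + Z ψ := by
      intro φ ψ
      simp only [Z, Cadd]; ring
    let D : (List (E n) → ZMod 2) → ZMod 2 := fun φ =>
      ∑ j ∈ range N, Z (fun σ => pz (h j) (h (j + 1)) σ φ)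
    have Dadd : ∀ φ ψ, D (fun τ => φ τ + ψ τ) = D φ + D ψ := by
      intro φ ψ
      simp only [D, pz_add, Zadd, sum_add_distrib]
    have Dbd : ∀ φ, D (fun τ => dd τ φ) = Z φ := by
      intro φ
      have h1 : ∀ j, Z (fun σ => pz (h j) (h (j + 1)) σ (fun τ => dd τ φ)) =
          Z (fun σ => φ (σ.map (h (j + 1)))) - Z (fun σ => φ (σ.map (h j))) := by
        intro j
        simp only [pz_dd, Zadd]
        have h2 : Z (fun σ => dd σ fun τ => pz (h j) (h (j + 1)) τ φ) = 0 := Ccyc _
        have h3 := z2 (Z (fun σ => φ (σ.map (h j))))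
        linear_combination h2 + h3
      simp only [D, h1]
      rw [sum_range_sub (fun j => Z (fun σ => φ (σ.map (h j)))), h0, hNN]
      have h4 : Z (fun σ => φ (σ.map fun _ => e)) = 0 := by
        simp only [Z, List.map_map]
        exact z2 _
      have h5 := z2 (Z φ)
      simp only [List.map_id, h4]
      linear_combination -h5
    refine ⟨D, Dadd, ?_, ?_, ?_⟩
    · intro φ hφ
      have key : ∀ j, ∀ σ, Good n k (η / 2) σ → pz (h j) (h (j + 1)) σ φ = 0 := by
        intro j σ hσ
        refine pz_eq_zero _ _ _ _ fun τ hl hτ => hφ τ ⟨by rw [hl, hσ.1], ?_, ?_⟩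
        · intro z hz
          obtain ⟨v, hv, e1⟩ := hτ z hz
          obtain ⟨hv1, hv2⟩ := hσ.2.1 v hv
          have : ∃ t, z = rot e t v := by
            rcases e1 with e1 | e1 <;> exact ⟨_, e1⟩
          obtain ⟨t, rfl⟩ := this
          refine ⟨rot_norm _ _ hv1 (hv2 _ (by simp)) t, fun i hi => ?_⟩
          have hne : i ≠ ⟨k + 1, hk⟩ := by intro e2; rw [e2] at hi; simp at hi
          simp [rot, he, hv2 i (by omega), hne]
        · intro z hz w hw
          obtain ⟨v, hv, e1⟩ := hτ z hz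
          obtain ⟨u, hu, e2⟩ := hτ w hw
          have hd := hσ.2.2 v hv u hu
          have hstep : 2 * (Real.pi / (2 * N)) ≤ η / 2 := by
            rw [div_lt_iff₀ hη] at hN
            have : 2 * (Real.pi / (2 * N)) = Real.pi / N := by field_simp
            rw [this, div_le_iff₀ hN0]
            nlinarith
          have hc : 0 ≤ Real.pi / (2 * N) := by positivity
          have : ∃ a b : ℝ, z = rot e a v ∧ w = rot e b u ∧ |a - b| ≤ Real.pi / (2 * N) := by
            rcases e1 with e1 | e1 <;> rcases e2 with e2 | e2 <;> refine ⟨_, _, e1, e2, ?_⟩ <;>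
              push_cast <;> rw [abs_le] <;> constructor <;> nlinarith
          obtain ⟨a, b, rfl, rfl, hab⟩ := this
          have := rot_dist e v u hen (hσ.2.1 u hu).1 a b
          linarith
      refine sum_eq_zero fun j _ => ?_
      simp only [Z]
      rw [Csupp _ (key j), Csupp _ fun σ hσ => key j _ ?_, add_zero]
      refine ⟨by simpa using hσ.1, ?_, ?_⟩
      · intro z hz
        obtain ⟨v, hv, rfl⟩ := List.mem_map.1 hz
        exact ⟨by simpa using (hσ.2.1 v hv).1, fun i hi => by simp [(hσ.2.1 v hv).2 i hi]⟩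
      · intro z hz w hw
        obtain ⟨v, hv, rfl⟩ := List.mem_map.1 hz
        obtain ⟨u, hu, rfl⟩ := List.mem_map.1 hw
        simpa using hσ.2.2 v hv u hu
    · intro φ
      simp only [dd_map]
      rw [Dbd, Dbd (fun τ => φ (τ.map Neg.neg))]
      simp only [Z, List.map_map]
      have h1 : (Neg.neg ∘ Neg.neg : E n → E n) = id := by funext x; simp
      simp only [h1, List.map_id]
      have h2 := z2 (C φ)
      have h3 := z2 (C fun τ => φ (τ.map Neg.neg))
      linear_combination h2 + h3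
    · rw [← Dadd]
      have h1 : (fun τ => alt s true (srt μ τ) + alt s false (srt μ τ)) =
          fun τ => dd τ (fun ρ => alt s true (srt μ ρ)) := by
        funext τ
        rw [dd_srt, dd_alt]; rfl
      rw [h1, Dbd, ← Cinv]
      simp only [Z]
      congr 1
      refine Ccongr _ _ fun τ hτ => ?_
      rw [srt_map μ Neg.neg hμ, alt_map]
      · rfl
      · intro z hz
        exact hs z (hτ.2.1 z ((srt_perm μ τ).mem_iff.1 hz)).1

/-- Ky Fan's lemma: for an odd sign `s` and an even size `μ` on the unit sphere of `E (k+1)` there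
are `k + 1` points, pairwise close, of increasing size and alternating sign. -/
theorem fan (k : ℕ) (s : E (k + 1) → Bool) (μ : E (k + 1) → ℝ)
    (hs : ∀ x, ‖x‖ = 1 → s (-x) = !s x) (hμ : ∀ x, μ (-x) = μ x) (η : ℝ) (hη : 0 < η) :
    ∃ τ : List (E (k + 1)), τ.length = k + 1 ∧ (∀ z ∈ τ, ‖z‖ = 1) ∧
      (∀ z ∈ τ, ∀ w ∈ τ, dist z w ≤ η) ∧ (τ.Pairwise fun a b => μ a ≤ μ b) ∧
      τ.IsChain (fun x y => s x ≠ s y) := by
  obtain ⟨C, -, Csupp, -, Cinv⟩ := exists_chain (k + 1) s μ hs hμ k (by omega) η hη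
  have : ∃ b, ∃ τ, Good (k + 1) k η τ ∧ alt s b (srt μ τ) ≠ 0 := by
    by_contra hcon
    push Not at hcon
    rw [Csupp _ (hcon true), Csupp _ (hcon false)] at Cinv
    simp at Cinv
  obtain ⟨b, τ, hτ, hb⟩ := this
  have hp := srt_perm μ τ
  refine ⟨srt μ τ, by rw [hp.length_eq, hτ.1], fun z hz => (hτ.2.1 z (hp.mem_iff.1 hz)).1,
    fun z hz w hw => hτ.2.2 z (hp.mem_iff.1 hz) w (hp.mem_iff.1 hw), srt_sorted μ τ,
    (alt_chain s _ b hb).1⟩

end Pool.Agent.Lib.MP_fcccf2_gt
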