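import Mathlib
import Pool.Agent.Lib.MP_fcccf2_gt.Fan

set_option autoImplicit false

/-! Borsuk-Ulam, and the lower bounds for the distortion of maps between balls. -/

namespace Pool.Agent.Lib.MP_fcccf2_gt

open Finset Metric

/-- The Borsuk-Ulam theorem. -/
theorem borsuk_ulam (m k : ℕ) (hm : 0 < m) (hmk : m ≤ k) (G : E (k + 1) → (Fin m → ℝ))
    (hG : ContinuousOn G (sphere 0 1)) (hodd : ∀ x, G (-x) = -G x) :
    ∃ x, ‖x‖ = 1 ∧ G x = 0 := by
  classical
  by_contra hcon
  push Not at hcon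
  have : Nonempty (Fin m) := ⟨⟨0, hm⟩⟩
  have hK : IsCompact (sphere (0 : E (k + 1)) 1) := isCompact_sphere _ _
  have hne : (sphere (0 : E (k + 1)) 1).Nonempty :=
    ⟨EuclideanSpace.single 0 (1 : ℝ), by simp⟩
  obtain ⟨x0, hx0, hmin⟩ := hK.exists_isMinOn hne hG.norm
  have hc : 0 < ‖G x0‖ := norm_pos_iff.2 (hcon x0 (by simpa using hx0))
  obtain ⟨η, hη, hu⟩ := Metric.uniformContinuousOn_iff.1
    (hK.uniformContinuousOn_of_continuous hG) _ hc
  have hex : ∀ a : Fin m → ℝ, ∃ i, ∀ j, a j ≤ a i := fun a => Finite.exists_max a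
  choose idx hidx using hex
  let I : E (k + 1) → Fin m := fun x => idx fun j => |G x j|
  have hI : ∀ x, I (-x) = I x := by
    intro x
    simp only [I, hodd, Pi.neg_apply, abs_neg]
  have hbig : ∀ x, ‖x‖ = 1 → ‖G x0‖ ≤ |G x (I x)| := by
    intro x hx
    refine le_trans (hmin (show x ∈ sphere (0 : E (k + 1)) 1 by simpa using hx)) ?_
    exact (pi_norm_le_iff_of_nonneg (abs_nonneg _)).2 fun j => hidx (fun j => |G x j|) j
  obtain ⟨τ, hl, hu1, hd, hs, hch⟩ := fan k (fun x => decide (0 < G x (I x)))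
    (fun x => ((I x).val : ℝ)) (by
      intro x hx
      have h1 := hbig x hx
      have h2 : G x (I x) ≠ 0 := by
        intro h
        rw [h, abs_zero] at h1
        linarith
      rw [hI, hodd]
      rcases lt_or_gt_of_ne h2 with h | h
      · simp [h, h.le]
      · simp [h, h.le]) (by intro x; rw [hI]) (η / 2) (by linarith)
  have hch2 : τ.IsChain fun a b => I a < I b := by
    rw [List.isChain_iff_getElem] at hch ⊢
    intro i hi
    have h1 := hch i hi
    have h2 := List.pairwise_iff_getElem.1 hs i (i + 1) (by omega) hi (by omega)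
    have h3 : I τ[i] ≤ I τ[i + 1] := by exact_mod_cast h2
    refine lt_of_le_of_ne h3 fun h4 => h1 ?_
    have ha : τ[i] ∈ τ := List.getElem_mem _
    have hb : τ[i + 1] ∈ τ := List.getElem_mem _
    have h5 := hu _ (by simpa using hu1 _ ha) _ (by simpa using hu1 _ hb)
      (lt_of_le_of_lt (hd _ ha _ hb) (by linarith))
    have h6 := (dist_le_pi_dist (G τ[i]) (G τ[i + 1]) (I τ[i])).trans_lt h5
    have h7 := hbig _ (hu1 _ ha)
    have h8 := hbig _ (hu1 _ hb)
    rw [← h4] at h8 ⊢
    rw [Real.dist_eq, abs_lt] at h6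
    rw [decide_eq_decide]
    constructor
    · intro h
      rw [abs_of_pos h] at h7
      linarith [h6.2]
    · intro h
      rw [abs_of_pos h] at h8
      linarith [h6.1]
  have hpw : τ.Pairwise fun a b => I a < I b := by
    have : Trans (fun a b : E (k + 1) => I a < I b) (fun a b => I a < I b)
        (fun a b => I a < I b) := ⟨fun h1 h2 => lt_trans h1 h2⟩
    exact List.isChain_iff_pairwise.1 hch2
  have hnd : (τ.map I).Nodup := by
    rw [List.Nodup, List.pairwise_map]
    exact hpw.imp fun h => ne_of_lt h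
  have := hnd.length_le_card
  simp [hl] at this
  omega

/-- Some point of the sphere and its antipode carry clusters whose images have meeting hulls. -/
lemma cluster (m k : ℕ) (hm : 0 < m) (hmk : m ≤ k) (f : E (k + 1) → E m) (η : ℝ) (hη : 0 < η) :
    ∃ x : E (k + 1), ‖x‖ = 1 ∧ (0 : E m × ℝ) ∈ convexHull ℝ
      {z | ∃ σ : ℝ, ∃ v, (σ = 1 ∨ σ = -1) ∧ ‖v‖ = 1 ∧ dist v (σ • x) < η ∧ z = (σ • f v, σ)} := by
  classical
  obtain ⟨t, hts, htf, hcov⟩ := (isCompact_sphere (0 : E (k + 1)) 1).finite_cover_balls hη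
  let T := htf.toFinset
  let w : E (k + 1) → E (k + 1) → ℝ := fun v x => max 0 (η - dist v x)
  have hw0 : ∀ v x, 0 ≤ w v x := fun v x => le_max_left _ _
  have hwc : ∀ v, Continuous (w v) := fun v => by
    simp only [w]; fun_prop
  let W : E (k + 1) → ℝ := fun x => ∑ v ∈ T, w v x
  have hW : ∀ x, ‖x‖ = 1 → 0 < W x := by
    intro x hx
    have := hcov (show x ∈ sphere (0 : E (k + 1)) 1 by simpa using hx)
    simp only [Set.mem_iUnion, mem_ball] at this
    obtain ⟨v, hv, hd⟩ := this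
    refine sum_pos' (fun v _ => hw0 v x) ⟨v, by simpa [T] using hv, ?_⟩
    rw [dist_comm] at hd
    exact lt_max_of_lt_right (by linarith)
  let F : E (k + 1) → E m := fun x => (W x)⁻¹ • ∑ v ∈ T, w v x • f v
  have hFc : ContinuousOn F (sphere 0 1) := by
    refine ContinuousOn.smul (ContinuousOn.inv₀ ?_ fun x hx => (hW x (by simpa using hx)).ne') ?_
    · exact (continuous_finsetSum _ fun v _ => hwc v).continuousOn
    · exact (continuous_finsetSum _ fun v _ => (hwc v).smul continuous_const).continuousOn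
  have hFn : ContinuousOn (fun x => F (-x)) (sphere 0 1) :=
    hFc.comp continuous_neg.continuousOn fun x hx => by simpa using hx
  obtain ⟨x, hx, hG⟩ := borsuk_ulam m k hm hmk (fun x => (F x - F (-x)).ofLp)
    ((PiLp.continuous_ofLp 2 _).comp_continuousOn (hFc.sub hFn))
    (by intro x; funext j; simp)
  have hF : F x = F (-x) := by
    have : F x - F (-x) = 0 := by
      ext j
      exact congrFun hG j
    exact sub_eq_zero.1 this
  refine ⟨x, hx, ?_⟩
  set S : Set (E m × ℝ) :=
    {z | ∃ σ : ℝ, ∃ v, (σ = 1 ∨ σ = -1) ∧ ‖v‖ = 1 ∧ dist v (σ • x) < η ∧ z = (σ • f v, σ)}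
  have key : ∀ σ : ℝ, (σ = 1 ∨ σ = -1) → (σ • F (σ • x), σ) ∈ convexHull ℝ S := by
    intro σ hσ
    have hn : ‖σ • x‖ = 1 := by rcases hσ with h | h <;> simp [h, hx]
    set y := σ • x with hy
    have hz : ∀ v, ¬ dist v y < η → w v y = 0 := fun v hv => max_eq_left (by linarith [not_lt.1 hv])
    have e1 : ∑ v ∈ T.filter (fun v => dist v y < η), w v y = W y :=
      sum_filter_of_ne fun v _ hv => by
        by_contra h
        exact hv (hz v h)
    have e2 : ∑ v ∈ T.filter (fun v => dist v y < η), w v y • f v = ∑ v ∈ T, w v y • f v :=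
      sum_filter_of_ne fun v _ hv => by
        by_contra h
        exact hv (by rw [hz v h, zero_smul])
    have := Finset.centerMass_mem_convexHull (T.filter (fun v => dist v y < η))
      (w := fun v => w v y) (fun v _ => hw0 v y) (by rw [e1]; exact hW y hn)
      (z := fun v => (σ • f v, σ)) (s := S) (fun v hv => by
        obtain ⟨h1, h2⟩ := mem_filter.1 hv
        exact ⟨σ, v, hσ, by simpa using hts (by simpa [T] using h1), h2, rfl⟩)
    have e3 : (T.filter (fun v => dist v y < η)).centerMass (fun v => w v y)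
        (fun v => ((σ • f v, σ) : E m × ℝ)) = (σ • F y, σ) := by
      rw [Finset.centerMass, e1]
      ext1
      · simp only [Prod.smul_fst, Prod.fst_sum, F]
        rw [← e2, smul_comm σ, smul_sum (M := ℝ) (r := σ)]
        congr 1
        exact sum_congr rfl fun v _ => smul_comm _ _ _
      · simp only [Prod.smul_snd, Prod.snd_sum, smul_eq_mul]
        rw [← sum_mul, e1, ← mul_assoc, inv_mul_cancel₀ (hW y hn).ne', one_mul]
    rwa [e3] at this
  have h1 := key 1 (Or.inl rfl)
  have h2 := key (-1) (Or.inr rfl)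
  have h3 := (convex_convexHull ℝ S) h1 h2 (show (0 : ℝ) ≤ 1 / 2 by norm_num)
    (show (0 : ℝ) ≤ 1 / 2 by norm_num) (by norm_num)
  have e4 : (1 / 2 : ℝ) • (((1 : ℝ) • F ((1 : ℝ) • x), (1 : ℝ)) : E m × ℝ) +
      (1 / 2 : ℝ) • (((-1 : ℝ) • F ((-1 : ℝ) • x), (-1 : ℝ)) : E m × ℝ) = 0 := by
    ext1
    · simp [← hF]
    · simp
  rwa [e4] at h3

/-- The square of the constant in the lower bound. -/
noncomputable def kapSq (m : ℕ) : ℝ :=
  1 - (1 / ((m / 2 + 1 : ℕ) : ℝ) + 1 / (((m + 1) / 2 + 1 : ℕ) : ℝ)) / 2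

lemma inv_sum_le (m a b : ℕ) (ha : 0 < a) (hb : 0 < b) (hab : a + b ≤ m + 2) :
    1 / ((m / 2 + 1 : ℕ) : ℝ) + 1 / (((m + 1) / 2 + 1 : ℕ) : ℝ) ≤ 1 / (a : ℝ) + 1 / (b : ℝ) := by
  obtain ⟨c, hc⟩ : ∃ c, a + c = m + 2 := ⟨m + 2 - a, by omega⟩
  have hbc : (b : ℝ) ≤ c := by exact_mod_cast (by omega : b ≤ c)
  have hb' : (0 : ℝ) < b := by exact_mod_cast hb
  have ha' : (0 : ℝ) < a := by exact_mod_cast ha
  have h1 : 1 / (c : ℝ) ≤ 1 / (b : ℝ) := one_div_le_one_div_of_le hb' hbc
  have hc' : (0 : ℝ) < c := by linarith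
  set p := m / 2 + 1 with hp
  set q := (m + 1) / 2 + 1 with hq
  have hpq : p + q = a + c := by omega
  have hle : a * c ≤ p * q := by
    have h2 : q = p ∨ q = p + 1 := by omega
    have h3 : (a : ℤ) * c ≤ p * q := by
      have h4 : (c : ℤ) = p + q - a := by omega
      rcases h2 with h | h
      · rw [h4, h]; nlinarith [sq_nonneg ((a : ℤ) - p)]
      · rw [h4, h]
        push_cast
        rcases le_or_gt (a : ℤ) p with h5 | h5 <;> nlinarith
    exact_mod_cast h3
  have hp' : (0 : ℝ) < p := by positivity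
  have hq' : (0 : ℝ) < q := by positivity
  have hle' : (a : ℝ) * c ≤ p * q := by exact_mod_cast hle
  have hpq' : (p : ℝ) + q = a + c := by exact_mod_cast hpq
  have : 1 / (p : ℝ) + 1 / q ≤ 1 / (a : ℝ) + 1 / c := by
    rw [div_add_div _ _ hp'.ne' hq'.ne', div_add_div _ _ ha'.ne' hc'.ne']
    simp only [one_mul, mul_one]
    rw [add_comm (q : ℝ), hpq', add_comm (c : ℝ)]
    exact div_le_div_of_nonneg_left (by positivity) (by positivity) hle'
  linarith

/-- The metric inequality for a Radon partition. -/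
lemma radon_ineq (m : ℕ) {ι : Type} [Fintype ι] (y : ι → E m) (w σ : ι → ℝ) (a b : ℝ)
    (hw : ∀ i, 0 < w i) (hσ : ∀ i, σ i = 1 ∨ σ i = -1) (h1 : ∑ i, w i = 1)
    (h2 : ∑ i, w i * σ i = 0) (h3 : ∑ i, (w i * σ i) • y i = 0) (hb : 0 ≤ b)
    (hsame : ∀ i j, σ i = σ j → ‖y i - y j‖ ≤ a) (hopp : ∀ i j, σ i ≠ σ j → b ≤ ‖y i - y j‖)
    (hcard : Fintype.card ι ≤ m + 2) : b ^ 2 ≤ kapSq m * a ^ 2 := by
  classical
  have hid : ∑ i, ∑ j, (w i * σ i) * (w j * σ j) * ‖y i - y j‖ ^ 2 = 0 := by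
    have e1 : ∀ i j, (w i * σ i) * (w j * σ j) * ‖y i - y j‖ ^ 2 =
        (w i * σ i * ‖y i‖ ^ 2) * (w j * σ j) + (w i * σ i) * (w j * σ j * ‖y j‖ ^ 2) -
          2 * inner ℝ ((w i * σ i) • y i) ((w j * σ j) • y j) := by
      intro i j
      rw [norm_sub_sq_real, real_inner_smul_left, real_inner_smul_right]
      ring
    simp only [e1, sum_sub_distrib, sum_add_distrib, ← mul_sum, ← sum_mul, h2, ← inner_sum,
      h3]
    simp
  have hterm : ∀ i j, (w i * σ i) * (w j * σ j) * ‖y i - y j‖ ^ 2 ≤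
      w i * w j * ((a ^ 2 - b ^ 2) / 2) + (w i * σ i) * (w j * σ j) * ((a ^ 2 + b ^ 2) / 2) -
        (if i = j then w i ^ 2 * a ^ 2 else 0) := by
    intro i j
    have hww := mul_pos (hw i) (hw j)
    split_ifs with hij
    · subst hij
      rcases hσ i with h | h <;> rw [h] <;> simp <;> ring_nf <;> rfl
    · by_cases hs : σ i = σ j
      · have h4 := hsame i j hs
        have h5 : ‖y i - y j‖ ^ 2 ≤ a ^ 2 := pow_le_pow_left₀ (norm_nonneg _) h4 2
        rw [← hs]
        rcases hσ i with h | h <;> rw [h] <;> nlinarith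
      · have h4 := hopp i j hs
        have h5 : b ^ 2 ≤ ‖y i - y j‖ ^ 2 := pow_le_pow_left₀ hb h4 2
        rcases hσ i with h | h <;> rcases hσ j with h' | h' <;>
          first
          | exact absurd (h.trans h'.symm) hs
          | (rw [h, h']; nlinarith)
  have hsum := sum_le_sum fun i (_ : i ∈ univ) => sum_le_sum fun j (_ : j ∈ univ) => hterm i j
  rw [hid] at hsum
  simp only [sum_sub_distrib, sum_add_distrib, ← mul_sum, ← sum_mul, h1, h2, sum_ite_eq,
    mem_univ, if_true] at hsum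
  -- the two halves
  let A := univ.filter fun i => σ i = 1
  let B := univ.filter fun i => ¬ σ i = 1
  have hA : ∑ i ∈ A, w i + ∑ i ∈ B, w i = 1 := by rw [sum_filter_add_sum_filter_not, h1]
  have hB : ∑ i ∈ A, w i - ∑ i ∈ B, w i = 0 := by
    rw [← h2, ← sum_filter_add_sum_filter_not univ (fun i => σ i = 1), sub_eq_add_neg,
      ← sum_neg_distrib]
    congr 1
    · exact sum_congr rfl fun i hi => by rw [(mem_filter.1 hi).2, mul_one]
    · exact sum_congr rfl fun i hi => by
        rw [(hσ i).resolve_left (mem_filter.1 hi).2]; ring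
  have hA2 : ∑ i ∈ A, w i = 1 / 2 := by linarith
  have hB2 : ∑ i ∈ B, w i = 1 / 2 := by linarith
  have hAc : 0 < #A := by
    rw [card_pos]
    by_contra h
    rw [not_nonempty_iff_eq_empty.1 h] at hA2
    norm_num at hA2
  have hBc : 0 < #B := by
    rw [card_pos]
    by_contra h
    rw [not_nonempty_iff_eq_empty.1 h] at hB2
    norm_num at hB2
  have hc : #A + #B ≤ m + 2 := by
    rw [card_filter_add_card_filter_not]; simpa using hcard
  have c1 := sq_sum_le_card_mul_sum_sq (s := A) (f := w)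
  have c2 := sq_sum_le_card_mul_sum_sq (s := B) (f := w)
  rw [hA2] at c1
  rw [hB2] at c2
  have hA' : (0 : ℝ) < #A := by exact_mod_cast hAc
  have hB' : (0 : ℝ) < #B := by exact_mod_cast hBc
  have d1 : 1 / (#A : ℝ) ≤ 4 * ∑ i ∈ A, w i ^ 2 := by rw [div_le_iff₀ hA']; nlinarith
  have d2 : 1 / (#B : ℝ) ≤ 4 * ∑ i ∈ B, w i ^ 2 := by rw [div_le_iff₀ hB']; nlinarith
  have d3 : ∑ i ∈ A, w i ^ 2 + ∑ i ∈ B, w i ^ 2 = ∑ i, w i ^ 2 :=
    sum_filter_add_sum_filter_not _ _ _
  have d4 := inv_sum_le m _ _ hAc hBc hc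
  have d5 : 1 - 2 * ∑ i, w i ^ 2 ≤ kapSq m := by unfold kapSq; linarith
  have d6 := mul_le_mul_of_nonneg_right d5 (sq_nonneg a)
  nlinarith

/-- Lower bound for the distortion of a map from a sphere to a Euclidean space of at most the same
dimension. -/
theorem distortion_lower (m k : ℕ) (hm : 0 < m) (hmk : m ≤ k) (f : E (k + 1) → E m) (δ : ℝ)
    (hf : ∀ x y, ‖x‖ = 1 → ‖y‖ = 1 → |dist x y - dist (f x) (f y)| ≤ δ) :
    2 ≤ (1 + Real.sqrt (kapSq m)) * δ := by
  have hδ : 0 ≤ δ := le_trans (abs_nonneg _)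
    (hf (EuclideanSpace.single 0 (1 : ℝ)) (EuclideanSpace.single 0 (1 : ℝ)) (by simp) (by simp))
  have hκ := Real.sqrt_nonneg (kapSq m)
  set κ := Real.sqrt (kapSq m) with hκd
  have main : ∀ η : ℝ, 0 < η → 2 - 2 * η - δ ≤ κ * (δ + 2 * η) := by
    intro η hη
    by_cases hb : 0 ≤ 2 - 2 * η - δ
    swap
    · have : 0 ≤ κ * (δ + 2 * η) := by positivity
      linarith [not_le.1 hb]
    obtain ⟨x, hx, h0⟩ := cluster m k hm hmk f η hη
    obtain ⟨ι, _, z, w, hz, hind, hw, hw1, hwz⟩ := eq_pos_convex_span_of_mem_convexHull h0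
    have hz' : ∀ i, ∃ σ : ℝ, ∃ v, (σ = 1 ∨ σ = -1) ∧ ‖v‖ = 1 ∧ dist v (σ • x) < η ∧
        z i = (σ • f v, σ) := fun i => hz (Set.mem_range_self i)
    choose σ v hσ hv hd hzz using hz'
    have hcard : Fintype.card ι ≤ m + 2 := by
      have h1 := hind.card_le_finrank_succ
      have h2 := Submodule.finrank_le (vectorSpan ℝ (Set.range z))
      simp only [Module.finrank_prod, finrank_euclideanSpace, Fintype.card_fin,
        Module.finrank_self] at h2
      omega
    have e1 : ∑ i, w i * σ i = 0 := by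
      have := congrArg Prod.snd hwz
      simpa [Prod.snd_sum, hzz] using this
    have e2 : ∑ i, (w i * σ i) • f (v i) = 0 := by
      have := congrArg Prod.fst hwz
      simpa [Prod.fst_sum, hzz, smul_smul] using this
    have h := radon_ineq m (fun i => f (v i)) w σ (δ + 2 * η) (2 - 2 * η - δ) hw hσ hw1 e1 e2 hb
      (by
        intro i j hij
        have h1 := (abs_le.1 (hf _ _ (hv i) (hv j))).1
        have h2 := dist_triangle_right (v i) (v j) (σ i • x)
        have h3 := hd i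
        have h4 := hd j
        rw [← hij] at h4
        rw [← dist_eq_norm]
        linarith)
      (by
        intro i j hij
        have h1 := (abs_le.1 (hf _ _ (hv i) (hv j))).2
        have h2 := dist_triangle4 (σ i • x) (v i) (v j) (σ j • x)
        have h3 := hd i
        have h4 := hd j
        have h5 : dist (σ i • x) (σ j • x) = 2 := by
          rw [dist_eq_norm, ← sub_smul, norm_smul, hx]
          rcases hσ i with h | h <;> rcases hσ j with h' | h' <;>
            first
            | exact absurd (h.trans h'.symm) hij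
            | (rw [h, h']; norm_num)
        rw [dist_comm] at h3
        rw [← dist_eq_norm]
        linarith) hcard
    have h6 : kapSq m ≤ κ ^ 2 := by
      rw [hκd]
      by_cases h : 0 ≤ kapSq m
      · rw [Real.sq_sqrt h]
      · exact (not_le.1 h).le.trans (sq_nonneg _)
    have h7 : (2 - 2 * η - δ) ^ 2 ≤ (κ * (δ + 2 * η)) ^ 2 := by
      have := mul_le_mul_of_nonneg_right h6 (sq_nonneg (δ + 2 * η))
      nlinarith
    exact (pow_le_pow_iff_left₀ hb (by positivity) two_ne_zero).1 h7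
  refine le_of_forall_pos_le_add fun ε hε => ?_
  have := main (ε / (2 * (1 + κ))) (by positivity)
  have e : 2 * (ε / (2 * (1 + κ))) * (1 + κ) = ε := by field_simp
  nlinarith

lemma chain_last {P : Type} (s : P → Bool) (μ : P → ℝ) (ε : ℝ) (ρ : List P) : ∀ a : P,
    (a :: ρ).IsChain (fun x y => s x ≠ s y ∧ μ x + ε ≤ μ y) →
      ∃ b ∈ a :: ρ, μ a + ρ.length * ε ≤ μ b ∧ (s b = s a ↔ Even ρ.length) := by
  induction ρ with
  | nil => intro a _; exact ⟨a, by simp, by simp, by simp⟩
  | cons c ρ ih =>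
    intro a h
    obtain ⟨⟨h1, h2⟩, h3⟩ := List.isChain_cons_cons.1 h
    obtain ⟨b, hb, h4, h5⟩ := ih c h3
    refine ⟨b, List.mem_cons_of_mem _ hb, ?_, ?_⟩
    · simp only [List.length_cons]; push_cast; linarith
    · rw [List.length_cons, Nat.even_add_one, ← h5]
      revert h1
      cases s a <;> cases s b <;> cases s c <;> simp

/-- Lower bound for the distortion of a map from a sphere to the segment. -/
theorem distortion_lower_line (k : ℕ) (φ : E (k + 1) → ℝ) (δ : ℝ)
    (hφ : ∀ x, ‖x‖ = 1 → |φ x| ≤ 1)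
    (hf : ∀ x y, ‖x‖ = 1 → ‖y‖ = 1 → abs (dist x y - |φ x - φ y|) ≤ δ) :
    2 * (2 * ((k + 1) / 2 : ℕ) : ℝ) ≤ (2 * ((k + 1) / 2 : ℕ) + 1) * δ := by
  have hδ : 0 ≤ δ := le_trans (abs_nonneg _)
    (hf (EuclideanSpace.single 0 (1 : ℝ)) (EuclideanSpace.single 0 (1 : ℝ)) (by simp) (by simp))
  by_cases hδ2 : 2 ≤ δ
  · have : (0 : ℝ) ≤ ((k + 1) / 2 : ℕ) := Nat.cast_nonneg _
    nlinarith
  have hanti : ∀ x : E (k + 1), ‖x‖ = 1 → dist x (-x) = 2 := by
    intro x hx
    rw [dist_eq_norm, sub_neg_eq_add, ← two_smul ℝ x, norm_smul, hx]; norm_num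
  have hsep : ∀ x : E (k + 1), ‖x‖ = 1 → 2 - δ ≤ |φ x - φ (-x)| := by
    intro x hx
    have := (abs_le.1 (hf x (-x) hx (by simpa using hx))).2
    rw [hanti x hx] at this
    linarith
  let s : E (k + 1) → Bool := fun x => decide (φ (-x) < φ x)
  let μ : E (k + 1) → ℝ := fun x => min (φ x) (φ (-x))
  let y : E (k + 1) → E (k + 1) := fun x => if s x then -x else x
  have hy1 : ∀ x, ‖x‖ = 1 → ‖y x‖ = 1 := by
    intro x hx
    simp only [y]; split_ifs <;> simp [hx]
  have hy2 : ∀ x, φ (y x) = μ x := by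
    intro x
    simp only [y, s, μ, decide_eq_true_eq]
    split_ifs with h
    · rw [min_eq_right h.le]
    · rw [min_eq_left (not_lt.1 h)]
  have hy3 : ∀ x, ‖x‖ = 1 → μ x + (2 - δ) ≤ φ (-y x) := by
    intro x hx
    have := hsep x hx
    simp only [y, s, μ, decide_eq_true_eq]
    split_ifs with h
    · rw [min_eq_right h.le, neg_neg]
      rw [abs_of_pos (by linarith)] at this
      linarith
    · rw [min_eq_left (not_lt.1 h)]
      rw [abs_of_nonpos (by linarith [not_lt.1 h])] at this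
      linarith
  have hy4 : ∀ a b, s a ≠ s b → dist (y a) (-y b) = dist a b := by
    intro a b h
    simp only [y]
    revert h
    cases s a <;> cases s b <;> simp
  have main : ∀ η : ℝ, 0 < η → ∃ a b : E (k + 1), ‖a‖ = 1 ∧ ‖b‖ = 1 ∧ dist a b ≤ η ∧
      μ a + k * (2 - δ - η) ≤ μ b ∧ (s b = s a ↔ Even k) := by
    intro η hη
    obtain ⟨τ, hl, hu1, hd, hs, hch⟩ := fan k s μ (by
      intro x hx
      have h1 := hsep x hx
      have h2 : φ x ≠ φ (-x) := by
        intro h
        rw [← h, sub_self, abs_zero] at h1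
        linarith
      simp only [s, neg_neg]
      rcases lt_or_gt_of_ne h2 with h | h
      · simp [h, h.le]
      · simp [h, h.le]) (by intro x; simp only [μ, neg_neg, min_comm]) η hη
    have hch2 : τ.IsChain fun a b => s a ≠ s b ∧ μ a + (2 - δ - η) ≤ μ b := by
      rw [List.isChain_iff_getElem] at hch ⊢
      intro i hi
      have h1 := hch i hi
      have h2 := List.pairwise_iff_getElem.1 hs i (i + 1) (by omega) hi (by omega)
      refine ⟨h1, ?_⟩
      have ha : τ[i] ∈ τ := List.getElem_mem _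
      have hb : τ[i + 1] ∈ τ := List.getElem_mem _
      have h3 := (abs_le.1 (hf _ _ (hy1 _ (hu1 _ ha)) (hy1 _ (hu1 _ hb)))).2
      have h4 := hy4 _ _ h1
      have h5 := dist_triangle (y τ[i + 1]) (y τ[i]) (-y τ[i + 1])
      rw [hanti _ (hy1 _ (hu1 _ hb)), h4, dist_comm] at h5
      have h6 := hd _ ha _ hb
      rw [hy2, hy2, abs_of_nonpos (by linarith)] at h3
      linarith
    cases τ with
    | nil => simp at hl
    | cons a ρ =>
      obtain ⟨b, hb, h1, h2⟩ := chain_last s μ _ ρ a hch2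
      have : ρ.length = k := by simpa using hl
      rw [this] at h1 h2
      exact ⟨a, b, hu1 a (by simp), hu1 b hb, hd a (by simp) b hb, h1, h2⟩
  refine le_of_forall_pos_le_add fun ε hε => ?_
  obtain ⟨a, b, ha, hb, hab, h1, h2⟩ := main (ε / (k + 1)) (by positivity)
  have e : (k + 1 : ℝ) * (ε / (k + 1)) = ε := by field_simp
  have hε' : 0 < ε / (k + 1) := by positivity
  have h3 := hy3 b hb
  rcases Nat.even_or_odd' k with ⟨j, hj | hj⟩
  · have e2 : (k + 1) / 2 = j := by omega
    have e3 : (k : ℝ) = 2 * j := by exact_mod_cast hj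
    have h4 := (abs_le.1 (hφ _ (hy1 a ha))).1
    have h5 := (abs_le.1 (hφ (-y b) (by simpa using hy1 b hb))).2
    rw [hy2] at h4
    rw [e2]
    rw [e3] at h1 e hε'
    nlinarith
  · have e2 : (k + 1) / 2 = j + 1 := by omega
    have e3 : (k : ℝ) = 2 * j + 1 := by exact_mod_cast hj
    have hne : s a ≠ s b := by
      intro h
      have := h2.1 h.symm
      rw [hj] at this
      exact (Nat.not_even_iff_odd.2 (odd_two_mul_add_one j)) this
    have h4 := (abs_le.1 (hf _ (-y b) (hy1 a ha) (by simpa using hy1 b hb))).1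
    rw [hy4 a b hne, hy2] at h4
    have h5 := neg_abs_le (μ a - φ (-y b))
    rw [e2]
    push_cast
    rw [e3] at h1 e hε' hab
    nlinarith

end Pool.Agent.Lib.MP_fcccf2_gt
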