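import Mathlib

set_option autoImplicit false

namespace Pool.Agent.Lib.MP_fcccf2_gt

/-- The closed unit ball of `ℝ ^ n`, as a metric space with the Euclidean distance. -/
abbrev Ball (n : ℕ) : Type := Metric.closedBall (0 : EuclideanSpace ℝ (Fin n)) 1

instance ballNonempty (n : ℕ) : Nonempty (Ball n) := ⟨⟨0, by simp⟩⟩

/-- The Gromov-Hausdorff distance between the unit balls of dimensions `m` and `n`. -/
noncomputable def dGH (m n : ℕ) : ℝ := GromovHausdorff.ghDist (Ball m) (Ball n)

end Pool.Agent.Lib.MP_fcccf2_gt
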