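import Mathlib
import Pool.Agent.Lib.MP_fcccf2_gt.Defs
import Pool.Agent.Lib.MP_fcccf2_gt.Lower

set_option autoImplicit false

/-! From distortion to the Gromov-Hausdorff distance, in both directions. -/

namespace Pool.Agent.Lib.MP_fcccf2_gt

open Metric Set GromovHausdorff

lemma gh_le_of_corr {X Y Z : Type} [MetricSpace X] [CompactSpace X] [Nonempty X]
    [MetricSpace Y] [CompactSpace Y] [Nonempty Y] [Nonempty Z] (Φ : Z → X) (Ψ : Z → Y)
    (hΦ : Function.Surjective Φ) (hΨ : Function.Surjective Ψ) (ε : ℝ) (hε : 0 < ε)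
    (H : ∀ p q, |dist (Φ p) (Φ q) - dist (Ψ p) (Ψ q)| ≤ 2 * ε) : ghDist X Y ≤ ε := by
  let _ : MetricSpace (X ⊕ Y) := glueMetricApprox Φ Ψ ε hε H
  let Fl := @Sum.inl X Y
  let Fr := @Sum.inr X Y
  have Il : Isometry Fl := Isometry.of_dist_eq fun x y => rfl
  have Ir : Isometry Fr := Isometry.of_dist_eq fun x y => rfl
  refine (ghDist_le_hausdorffDist Il Ir).trans (hausdorffDist_le_of_mem_dist hε.le ?_ ?_)
  · rintro _ ⟨x, rfl⟩
    obtain ⟨p, rfl⟩ := hΦ x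
    exact ⟨Fr (Ψ p), mem_range_self _, le_of_eq (glueDist_glued_points Φ Ψ ε p)⟩
  · rintro _ ⟨y, rfl⟩
    obtain ⟨p, rfl⟩ := hΨ y
    refine ⟨Fl (Φ p), mem_range_self _, ?_⟩
    rw [dist_comm]
    exact le_of_eq (glueDist_glued_points Φ Ψ ε p)

lemma exists_map_of_gh_lt {X Y : Type} [MetricSpace X] [CompactSpace X] [Nonempty X]
    [MetricSpace Y] [CompactSpace Y] [Nonempty Y] (r : ℝ) (h : ghDist X Y < r) :
    ∃ f : Y → X, ∀ a b, |dist a b - dist (f a) (f b)| ≤ 2 * r := by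
  obtain ⟨Φ, Ψ, hΦ, hΨ, e⟩ := ghDist_eq_hausdorffDist X Y
  rw [e] at h
  have hfin : hausdorffEDist (range Φ) (range Ψ) ≠ ⊤ :=
    hausdorffEDist_ne_top_of_nonempty_of_bounded (range_nonempty _) (range_nonempty _)
      (isCompact_range hΦ.continuous).isBounded (isCompact_range hΨ.continuous).isBounded
  have : ∀ y : Y, ∃ x : X, dist (Φ x) (Ψ y) < r := by
    intro y
    obtain ⟨_, ⟨x, rfl⟩, hx⟩ := exists_dist_lt_of_hausdorffDist_lt' (mem_range_self y) h hfin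
    exact ⟨x, hx⟩
  choose f hf using this
  refine ⟨f, fun a b => ?_⟩
  rw [← hΨ.dist_eq a b, ← hΦ.dist_eq (f a) (f b)]
  have h1 := dist_triangle4 (Ψ a) (Φ (f a)) (Φ (f b)) (Ψ b)
  have h2 := dist_triangle4 (Φ (f a)) (Ψ a) (Ψ b) (Φ (f b))
  have h3 := hf a
  have h4 := hf b
  rw [dist_comm (Ψ a) (Φ (f a))] at h1
  rw [dist_comm (Ψ b) (Φ (f b))] at h2
  rw [abs_le]
  constructor <;> linarith

lemma exists_ext (m n : ℕ) (r : ℝ) (h : dGH m n < r) :
    ∃ f : E n → E m, (∀ x, ‖f x‖ ≤ 1) ∧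
      ∀ x y, ‖x‖ = 1 → ‖y‖ = 1 → |dist x y - dist (f x) (f y)| ≤ 2 * r := by
  classical
  obtain ⟨f, hf⟩ := exists_map_of_gh_lt r h
  refine ⟨fun x => if hx : ‖x‖ = 1 then (f ⟨x, by simp [hx]⟩).1 else 0, fun x => ?_, ?_⟩
  · beta_reduce
    split_ifs with hx
    · exact mem_closedBall_zero_iff.1 (f ⟨x, by simp [hx]⟩).2
    · simp
  · intro x y hx hy
    simp only [hx, hy, dite_true]
    exact hf ⟨x, by simp [hx]⟩ ⟨y, by simp [hy]⟩

theorem dGH_lower (m n : ℕ) (hm : 0 < m) (hmn : m < n) :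
    1 / (1 + Real.sqrt (kapSq m)) ≤ dGH m n := by
  obtain ⟨k, rfl⟩ : ∃ k, n = k + 1 := ⟨n - 1, by omega⟩
  refine le_of_forall_gt_imp_ge_of_dense fun r hr => ?_
  obtain ⟨f, -, hf⟩ := exists_ext _ _ r hr
  have := distortion_lower m k hm (by omega) f _ hf
  have h0 := Real.sqrt_nonneg (kapSq m)
  rw [div_le_iff₀ (by linarith)]
  linarith

theorem dGH_lower_line (n : ℕ) (hn : 0 < n) :
    1 - 1 / (2 * (n / 2 : ℕ) + 1 : ℝ) ≤ dGH 1 n := by
  obtain ⟨k, rfl⟩ : ∃ k, n = k + 1 := ⟨n - 1, by omega⟩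
  refine le_of_forall_gt_imp_ge_of_dense fun r hr => ?_
  obtain ⟨f, hf1, hf⟩ := exists_ext _ _ r hr
  have hn1 : ∀ v : E 1, ‖v‖ = |v 0| := by
    intro v
    simp [EuclideanSpace.norm_eq, Real.sqrt_sq_eq_abs]
  have := distortion_lower_line k (fun x => f x 0) (2 * r) (fun x _ => by
    rw [← hn1]; exact hf1 x) (fun x y hx hy => by
    have h := hf x y hx hy
    rwa [dist_eq_norm (f x), hn1, PiLp.sub_apply] at h)
  have h0 : (0 : ℝ) < 2 * ((k + 1) / 2 : ℕ) + 1 := by positivity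
  rw [sub_le_iff_le_add, ← sub_le_iff_le_add', le_div_iff₀ h0]
  linarith

lemma radial_dist {n : ℕ} (a b : E n) (ha : ‖a‖ = 1) (hb : ‖b‖ = 1) (r s : ℝ) :
    dist (r • a) (s • b) ^ 2 = (r - s) ^ 2 + r * s * dist a b ^ 2 := by
  rw [dist_eq_norm, dist_eq_norm, norm_sub_sq_real, norm_sub_sq_real, norm_smul, norm_smul,
    real_inner_smul_left, real_inner_smul_right, ha, hb]
  simp only [Real.norm_eq_abs, mul_one, sq_abs]
  ring

/-- A map on the unit sphere extends radially to a correspondence between the balls. -/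
theorem dGH_le_of_sphere (m n : ℕ) (ι : E m →ₗᵢ[ℝ] E n) (F : E n → E m) (δ r₀ : ℝ) (hδ : 1 ≤ δ)
    (h0 : 0 ≤ r₀) (h1 : 2 * r₀ ≤ δ)
    (hL : ∀ a b, ‖a‖ = 1 → ‖b‖ = 1 → dist a b ≤ δ + dist (F a) (F b))
    (hU : ∀ a b, ‖a‖ = 1 → ‖b‖ = 1 → dist (F a) (F b) ≤ δ + r₀ * dist a b)
    (hN : ∀ a, ‖a‖ = 1 → 1 + r₀ - δ ≤ ‖F a‖ ∧ ‖F a‖ ≤ 1)
    (hG : ∀ a, ‖a‖ = 1 → dist (ι (F a)) a ≤ δ) : dGH m n ≤ δ / 2 := by
  classical
  let f : E n → E m := fun x => if ‖x‖ ≤ r₀ then 0 else F (‖x‖⁻¹ • x)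
  have hdec : ∀ x : E n, ¬ ‖x‖ ≤ r₀ → ‖‖x‖⁻¹ • x‖ = 1 ∧ x = ‖x‖ • (‖x‖⁻¹ • x) := by
    intro x hx
    have : ‖x‖ ≠ 0 := (lt_of_le_of_lt h0 (not_le.1 hx)).ne'
    constructor
    · rw [norm_smul, norm_inv, norm_norm, inv_mul_cancel₀ this]
    · rw [smul_smul, mul_inv_cancel₀ this, one_smul]
  have hf1 : ∀ x, ‖f x‖ ≤ 1 := by
    intro x
    simp only [f]
    split_ifs with hx
    · simp
    · exact (hN _ (hdec x hx).1).2
  have hfG : ∀ x, ‖x‖ ≤ 1 → dist (ι (f x)) x ≤ δ := by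
    intro x hx1
    simp only [f]
    split_ifs with hx
    · simp only [map_zero, dist_zero_left]; linarith
    · obtain ⟨e1, e2⟩ := hdec x hx
      have hr0 := norm_nonneg x
      generalize ‖x‖⁻¹ • x = a at e1 e2
      generalize ‖x‖ = r at e2 hx1 hr0
      have h2 := hG a e1
      have h3 := (hN a e1).2
      have e3 : ι (F a) - x = r • (ι (F a) - a) + (1 - r) • ι (F a) := by
        rw [e2, smul_sub, sub_smul, one_smul]; abel
      rw [dist_eq_norm] at h2 ⊢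
      rw [e3]
      refine (norm_add_le _ _).trans ?_
      rw [norm_smul, norm_smul, Real.norm_of_nonneg hr0, Real.norm_of_nonneg (by linarith),
        ι.norm_map]
      nlinarith
  have hio : ∀ x y : E n, ‖x‖ ≤ r₀ → ¬ ‖y‖ ≤ r₀ → ‖y‖ ≤ 1 →
      |dist x y - dist (f x) (f y)| ≤ δ := by
    intro x y hx hy hy1
    simp only [f, if_pos hx, if_neg hy, dist_zero_left]
    obtain ⟨h2, h3⟩ := hN _ (hdec y hy).1
    have h4 : dist x y ≤ ‖x‖ + ‖y‖ := dist_le_norm_add_norm x y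
    have h5 := dist_nonneg (x := x) (y := y)
    rw [abs_le]
    constructor <;> linarith
  have hff : ∀ x y : E n, ‖x‖ ≤ 1 → ‖y‖ ≤ 1 → |dist x y - dist (f x) (f y)| ≤ δ := by
    intro x y hx1 hy1
    by_cases hx : ‖x‖ ≤ r₀ <;> by_cases hy : ‖y‖ ≤ r₀
    · simp only [f, if_pos hx, if_pos hy, dist_self, sub_zero]
      have h4 : dist x y ≤ ‖x‖ + ‖y‖ := dist_le_norm_add_norm x y
      rw [abs_of_nonneg dist_nonneg]
      linarith
    · exact hio x y hx hy hy1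
    · rw [dist_comm x, dist_comm (f x)]
      exact hio y x hy hx hx1
    · simp only [f, if_neg hx, if_neg hy]
      obtain ⟨e1, e2⟩ := hdec x hx
      obtain ⟨e3, e4⟩ := hdec y hy
      have hx' := not_le.1 hx
      have hy' := not_le.1 hy
      generalize ‖x‖⁻¹ • x = a at e1 e2
      generalize ‖y‖⁻¹ • y = b at e3 e4
      generalize ‖x‖ = r at e2 hx1 hx'
      generalize ‖y‖ = s at e4 hy1 hy'
      have h2 := radial_dist a b e1 e3 r s
      rw [← e2, ← e4] at h2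
      have h3 := hL a b e1 e3
      have h4 := hU a b e1 e3
      have d0 := dist_nonneg (x := a) (y := b)
      have d1 := dist_nonneg (x := x) (y := y)
      have d2 := dist_nonneg (x := F a) (y := F b)
      have h5 : r₀ * dist a b ≤ dist x y := by
        refine (pow_le_pow_iff_left₀ (by positivity) d1 two_ne_zero).1 ?_
        have : r₀ * r₀ ≤ r * s := mul_le_mul hx'.le hy'.le h0 (by linarith)
        nlinarith [sq_nonneg (r - s), sq_nonneg (dist a b)]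
      have h6 : dist x y ≤ max 1 (dist a b) := by
        have hr : 0 ≤ r := by linarith
        have hs : 0 ≤ s := by linarith
        have hrs : 0 ≤ r * s := mul_nonneg hr hs
        have hm1 := le_max_left 1 (dist a b)
        have hm2 := le_max_right 1 (dist a b)
        set M := max 1 (dist a b)
        refine (pow_le_pow_iff_left₀ d1 (by linarith) two_ne_zero).1 ?_
        have h7 : (r - s) ^ 2 ≤ 1 - r * s := by
          rcases le_total r s with h | h <;> nlinarith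
        have h8 : dist a b ^ 2 ≤ M ^ 2 := pow_le_pow_left₀ d0 hm2 2
        have h9 : 1 ≤ M ^ 2 := by nlinarith
        have h10 : r * s ≤ 1 := by nlinarith
        nlinarith
      rw [abs_le]
      constructor
      · linarith
      · rcases le_max_iff.1 h6 with h | h <;> linarith
  let Φ : Ball n ⊕ Ball m → Ball m := Sum.elim (fun x => ⟨f x.1, by simpa using hf1 x.1⟩) id
  let Ψ : Ball n ⊕ Ball m → Ball n := Sum.elim id
    (fun w => ⟨ι w.1, by
      rw [mem_closedBall_zero_iff, ι.norm_map]; exact mem_closedBall_zero_iff.1 w.2⟩)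
  have hb : ∀ {k : ℕ} (x : Ball k), ‖x.1‖ ≤ 1 := fun x => mem_closedBall_zero_iff.1 x.2
  have hmix : ∀ (x : Ball n) (w : Ball m), |dist (f x.1) w.1 - dist x.1 (ι w.1)| ≤ δ := by
    intro x w
    rw [← ι.dist_map]
    exact (abs_dist_sub_le _ _ _).trans (hfG x.1 (hb x))
  refine gh_le_of_corr Φ Ψ (fun w => ⟨Sum.inr w, rfl⟩) (fun x => ⟨Sum.inl x, rfl⟩) (δ / 2)
    (by linarith) ?_
  rw [show 2 * (δ / 2) = δ by ring]
  rintro (x | w) (y | v)
  · rw [abs_sub_comm]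
    exact hff x.1 y.1 (hb x) (hb y)
  · exact hmix x v
  · rw [dist_comm (Φ _), dist_comm (Ψ _)]
    exact hmix y w
  · have : dist (Ψ (Sum.inr w)) (Ψ (Sum.inr v)) = dist w v := ι.dist_map w.1 v.1
    rw [this]
    simp only [Φ, Sum.elim_inr, id, sub_self, abs_zero]
    linarith

end Pool.Agent.Lib.MP_fcccf2_gt
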