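import Mathlib
import Pool.Agent.Lib.MP_fcccf2_gt.PL
import Pool.Agent.Lib.MP_fcccf2_gt.GH

set_option autoImplicit false

/-! Isodiametric inequality, nets, and the volumetric lower bound. -/

open MeasureTheory Metric
open scoped ENNReal

namespace Pool.Agent.Lib.MP_fcccf2_gt

theorem pl_marg {V : Type} [DecidableEq V] (s : Finset V) {f g h : (V → ℝ) → ℝ≥0∞}
    (hf : Measurable f) (hg : Measurable g) (hh : Measurable h)
    (H : ∀ x y, f x * g y ≤ h (fun i => (x i + y i) / 2) ^ 2) (x y : V → ℝ) :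
    lmarginal (fun _ => (volume : Measure ℝ)) s f x *
        lmarginal (fun _ => (volume : Measure ℝ)) s g y ≤
      lmarginal (fun _ => (volume : Measure ℝ)) s h (fun i => (x i + y i) / 2) ^ 2 := by
  induction s using Finset.induction_on generalizing x y with
  | empty => simpa only [lmarginal_empty] using H x y
  | insert i s hi ih =>
    have hmid : ∀ a b : ℝ, (fun j => (Function.update x i a j + Function.update y i b j) / 2)
        = Function.update (fun j => (x j + y j) / 2) i ((a + b) / 2) := by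
      intro a b
      funext j
      by_cases hj : j = i
      · subst hj; simp
      · simp [Function.update_of_ne hj]
    have hm : ∀ {u : (V → ℝ) → ℝ≥0∞}, Measurable u → ∀ z : V → ℝ,
        Measurable fun a : ℝ =>
          lmarginal (fun _ => (volume : Measure ℝ)) s u (Function.update z i a) := fun hu z =>
      (hu.lmarginal _).comp (measurable_update z)
    rw [lmarginal_insert _ hf hi, lmarginal_insert _ hg hi, lmarginal_insert _ hh hi]
    refine pl_one (hm hf x) (hm hg y) (hm hh _) fun a b => ?_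
    rw [← hmid]
    exact ih _ _

theorem pl_euclid {n : ℕ} {f g h : E n → ℝ≥0∞}
    (hf : Measurable f) (hg : Measurable g) (hh : Measurable h)
    (H : ∀ x y, f x * g y ≤ h ((2 : ℝ)⁻¹ • (x + y)) ^ 2) :
    (∫⁻ x, f x) * (∫⁻ x, g x) ≤ (∫⁻ x, h x) ^ 2 := by
  have hp := PiLp.volume_preserving_toLp (Fin n)
  have hm := WithLp.measurable_toLp 2 (Fin n → ℝ)
  rw [← hp.lintegral_comp hf, ← hp.lintegral_comp hg, ← hp.lintegral_comp hh, volume_pi,
    lintegral_eq_lmarginal_univ 0, lintegral_eq_lmarginal_univ 0,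
    lintegral_eq_lmarginal_univ (fun i => ((0 : Fin n → ℝ) i + (0 : Fin n → ℝ) i) / 2)]
  refine pl_marg Finset.univ (hf.comp hm) (hg.comp hm) (hh.comp hm) (fun x y => ?_) 0 0
  have e : (WithLp.toLp 2 fun i => (x i + y i) / 2 : E n) =
      (2 : ℝ)⁻¹ • (WithLp.toLp 2 x + WithLp.toLp 2 y) := by
    ext i
    simp [div_eq_inv_mul, mul_add]
  have h := H (WithLp.toLp 2 x) (WithLp.toLp 2 y)
  rw [← e] at h
  exact h

/-- The isodiametric inequality. -/
theorem isodiametric {n : ℕ} (A : Set (E n)) (D : ℝ) (hA : ∀ x ∈ A, ∀ y ∈ A, dist x y ≤ D) :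
    volume A ≤ volume (closedBall (0 : E n) (D / 2)) := by
  have hC : ∀ x ∈ closure A, ∀ y ∈ closure A, dist x y ≤ D := by
    intro x hx y hy
    have h1 : ∀ y ∈ A, dist x y ≤ D := fun y hy =>
      closure_minimal (t := {x | dist x y ≤ D}) (fun x hx => hA x hx y hy)
        (isClosed_le (by fun_prop) continuous_const) hx
    exact closure_minimal (t := {y | dist x y ≤ D}) h1
      (isClosed_le (by fun_prop) continuous_const) hy
  refine (measure_mono subset_closure).trans ?_
  set K := closure A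
  have hK : MeasurableSet K := isClosed_closure.measurableSet
  have h := pl_euclid (f := K.indicator 1) (g := (-K).indicator 1)
    (h := (closedBall (0 : E n) (D / 2)).indicator 1) (measurable_one.indicator hK)
    (measurable_one.indicator hK.neg) (measurable_one.indicator measurableSet_closedBall) ?_
  · rw [lintegral_indicator_one hK, lintegral_indicator_one hK.neg,
      lintegral_indicator_one measurableSet_closedBall, Measure.measure_neg, ← sq] at h
    exact (ENNReal.pow_le_pow_left_iff two_ne_zero).1 h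
  · intro x y
    by_cases hx : x ∈ K
    · by_cases hy : y ∈ -K
      · have h1 : (2 : ℝ)⁻¹ • (x + y) ∈ closedBall (0 : E n) (D / 2) := by
          have h2 := hC x hx (-y) hy
          rw [dist_eq_norm, sub_neg_eq_add] at h2
          rw [mem_closedBall_zero_iff, norm_smul, Real.norm_of_nonneg (by norm_num)]
          linarith
        rw [Set.indicator_of_mem hx, Set.indicator_of_mem hy, Set.indicator_of_mem h1]
        simp
      · simp [hy]
    · simp [hx]

theorem vol_ball (k : ℕ) (x : E k) {r : ℝ} (hr : 0 ≤ r) :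
    volume (closedBall x r) = ENNReal.ofReal (r ^ k) * volume (closedBall (0 : E k) 1) := by
  rw [Measure.addHaar_closedBall' volume x hr, finrank_euclideanSpace_fin]

theorem vol_unit_pos (k : ℕ) : volume (closedBall (0 : E k) 1) ≠ 0 :=
  (measure_closedBall_pos volume _ one_pos).ne'

theorem vol_unit_fin (k : ℕ) : volume (closedBall (0 : E k) 1) ≠ ⊤ :=
  measure_closedBall_lt_top.ne

/-- comparison of volumes: a cover of a ball by sets of small volume -/
theorem pow_le_of_cover {k : ℕ} {ι : Type} (S : Finset ι) (A : ι → Set (E k)) {R r : ℝ}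
    (hR : 0 ≤ R) (hr : 0 ≤ r) (hcov : closedBall (0 : E k) R ⊆ ⋃ i ∈ S, A i)
    (hA : ∀ i ∈ S, volume (A i) ≤ volume (closedBall (0 : E k) r)) :
    R ^ k ≤ S.card * r ^ k := by
  have h := (measure_mono hcov).trans (measure_biUnion_finset_le (μ := volume) S A)
  have h2 := h.trans (Finset.sum_le_card_nsmul S _ _ hA)
  rw [vol_ball k 0 hR, vol_ball k 0 hr, nsmul_eq_mul, ← mul_assoc,
    ENNReal.mul_le_mul_iff_left (vol_unit_pos k) (vol_unit_fin k), ← ENNReal.ofReal_natCast,
    ← ENNReal.ofReal_mul (Nat.cast_nonneg _)] at h2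
  exact (ENNReal.ofReal_le_ofReal_iff (by positivity)).1 h2

theorem card_le_of_sep {k : ℕ} (S : Finset (E k)) {R r : ℝ} (hR : 0 ≤ R) (hr : 0 < r)
    (hS : ∀ x ∈ S, ‖x‖ ≤ R) (hsep : ∀ x ∈ S, ∀ y ∈ S, x ≠ y → r < dist x y) :
    (S.card : ℝ) ≤ (1 + 2 * R / r) ^ k := by
  have hd : (S : Set (E k)).PairwiseDisjoint fun x => closedBall x (r / 2) := by
    intro x hx y hy hxy
    exact closedBall_disjoint_closedBall (by linarith [hsep x hx y hy hxy])
  have h1 : (⋃ x ∈ S, closedBall x (r / 2)) ⊆ closedBall (0 : E k) (R + r / 2) := by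
    intro z hz
    simp only [Set.mem_iUnion] at hz
    obtain ⟨x, hx, hz⟩ := hz
    have := dist_triangle z x 0
    rw [dist_zero_right x] at this
    rw [mem_closedBall] at hz ⊢
    linarith [hS x hx]
  have h2 := measure_mono (μ := volume) h1
  rw [measure_biUnion_finset hd fun _ _ => measurableSet_closedBall,
    Finset.sum_congr rfl fun x _ => vol_ball k x (by linarith : 0 ≤ r / 2), Finset.sum_const,
    vol_ball k 0 (by linarith : 0 ≤ R + r / 2), nsmul_eq_mul, ← mul_assoc,
    ENNReal.mul_le_mul_iff_left (vol_unit_pos k) (vol_unit_fin k), ← ENNReal.ofReal_natCast,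
    ← ENNReal.ofReal_mul (Nat.cast_nonneg _)] at h2
  have h3 := (ENNReal.ofReal_le_ofReal_iff (by positivity)).1 h2
  have e : 1 + 2 * R / r = (R + r / 2) / (r / 2) := by field_simp; ring
  rw [e, div_pow, le_div_iff₀ (by positivity)]
  exact h3

/-- maximal separated sets -/
theorem exists_net {k : ℕ} (K : Set (E k)) {R r : ℝ} (hR : 0 ≤ R) (hr : 0 < r)
    (hK : ∀ x ∈ K, ‖x‖ ≤ R) :
    ∃ S : Finset (E k), (∀ x ∈ S, x ∈ K) ∧ (∀ x ∈ S, ∀ y ∈ S, x ≠ y → r < dist x y) ∧
      (∀ z ∈ K, ∃ x ∈ S, dist z x ≤ r) ∧ (S.card : ℝ) ≤ (1 + 2 * R / r) ^ k := by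
  classical
  let P : ℕ → Prop := fun c => ∃ S : Finset (E k), (∀ x ∈ S, x ∈ K) ∧
    (∀ x ∈ S, ∀ y ∈ S, x ≠ y → r < dist x y) ∧ S.card = c
  let B := ⌈(1 + 2 * R / r) ^ k⌉₊
  have hB : ∀ c, P c → c ≤ B := by
    rintro c ⟨S, h1, h2, rfl⟩
    have := (card_le_of_sep S hR hr (fun x hx => hK x (h1 x hx)) h2).trans (Nat.le_ceil _)
    exact_mod_cast this
  have h0 : P 0 := ⟨∅, by simp, by simp, rfl⟩
  obtain ⟨S, h1, h2, h3⟩ := Nat.findGreatest_spec (Nat.zero_le B) h0
  refine ⟨S, h1, h2, fun z hz => ?_, card_le_of_sep S hR hr (fun x hx => hK x (h1 x hx)) h2⟩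
  by_contra hcon
  push Not at hcon
  have hzS : z ∉ S := fun h => by
    have := hcon z h
    rw [dist_self] at this
    linarith
  have hP : P (S.card + 1) := by
    refine ⟨insert z S, ?_, ?_, Finset.card_insert_of_notMem hzS⟩
    · intro x hx
      rcases Finset.mem_insert.1 hx with rfl | hx
      · exact hz
      · exact h1 x hx
    · intro x hx y hy hxy
      rcases Finset.mem_insert.1 hx with hx' | hx' <;>
        rcases Finset.mem_insert.1 hy with hy' | hy'
      · exact absurd (hx'.trans hy'.symm) hxy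
      · rw [hx']; exact hcon y hy'
      · rw [dist_comm, hy']; exact hcon x hx'
      · exact h2 x hx' y hy' hxy
  have := Nat.le_findGreatest (hB _ hP) hP
  omega

/-- The volumetric lower bound. -/
theorem dGH_lower_vol (m n : ℕ) (η : ℝ) (hη : 0 < η) :
    1 ≤ (1 + 2 / η) ^ m * (dGH m n + η) ^ n := by
  have hd : 0 ≤ dGH m n := by
    unfold dGH GromovHausdorff.ghDist
    exact dist_nonneg
  have key : ∀ r, dGH m n < r → 1 ≤ (1 + 2 / η) ^ m * (r + η) ^ n := by
    intro r hr
    obtain ⟨f, hf⟩ := exists_map_of_gh_lt r hr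
    obtain ⟨S, -, -, h3, h4⟩ := exists_net (closedBall (0 : E m) 1) zero_le_one hη
      (fun x hx => mem_closedBall_zero_iff.1 hx)
    have h5 := pow_le_of_cover S
      (fun p => {x : E n | ∃ hx : x ∈ closedBall (0 : E n) 1, dist (f ⟨x, hx⟩).1 p ≤ η})
      zero_le_one (r := r + η) (by linarith) ?_ ?_
    · rw [one_pow] at h5
      rw [mul_one] at h4
      exact h5.trans (mul_le_mul_of_nonneg_right h4 (pow_nonneg (by linarith) _))
    · intro x hx
      obtain ⟨p, hp, hp2⟩ := h3 _ (f ⟨x, hx⟩).2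
      simp only [Set.mem_iUnion]
      exact ⟨p, hp, hx, hp2⟩
    · intro p _
      rw [show r + η = (2 * r + 2 * η) / 2 by ring]
      refine isodiametric _ _ ?_
      rintro x ⟨hx, hx2⟩ y ⟨hy, hy2⟩
      have h6 := (abs_le.1 (hf ⟨x, hx⟩ ⟨y, hy⟩)).2
      have h7 := dist_triangle_right (f ⟨x, hx⟩).1 (f ⟨y, hy⟩).1 p
      have h8 : dist (f ⟨x, hx⟩) (f ⟨y, hy⟩) = dist (f ⟨x, hx⟩).1 (f ⟨y, hy⟩).1 := rfl
      have h9 : dist (⟨x, hx⟩ : Ball n) ⟨y, hy⟩ = dist x y := rfl
      linarith
  have hc : ContinuousAt (fun r : ℝ => (1 + 2 / η) ^ m * (r + η) ^ n) (dGH m n) := by fun_prop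
  exact ge_of_tendsto (hc.tendsto.mono_left (nhdsWithin_le_nhds (s := Set.Ioi (dGH m n))))
    (eventually_nhdsWithin_of_forall fun r hr => key r hr)

/-- Explicit form of the volumetric bound. -/
theorem one_sub_dGH_le (m n : ℕ) (hm : 1 ≤ m) (hmn : m < n) :
    n * (1 - dGH m n) ≤ m * (Real.log (n / m) + 3) := by
  have hm0 : (0 : ℝ) < m := by exact_mod_cast hm
  have hmn' : (m : ℝ) < n := by exact_mod_cast hmn
  have hn0 : (0 : ℝ) < n := by linarith
  have hd : 0 ≤ dGH m n := by
    unfold dGH GromovHausdorff.ghDist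
    exact dist_nonneg
  have h := dGH_lower_vol m n (m / n) (by positivity)
  have h1 := Real.log_nonneg h
  have hp : 0 < dGH m n + m / n := by positivity
  rw [Real.log_mul (by positivity) (by positivity), Real.log_pow, Real.log_pow] at h1
  have h2 := Real.log_le_sub_one_of_pos hp
  have h3 : Real.log (1 + 2 / ((m : ℝ) / n)) ≤ Real.log (n / m) + 2 := by
    have e : 1 + 2 / ((m : ℝ) / n) ≤ n / m * 3 := by
      have : (1 : ℝ) ≤ n / m := by rw [le_div_iff₀ hm0]; linarith
      have e2 : 2 / ((m : ℝ) / n) = n / m * 2 := by field_simp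
      linarith
    refine (Real.log_le_log (by positivity) e).trans ?_
    rw [Real.log_mul (by positivity) (by norm_num)]
    have := Real.log_le_sub_one_of_pos (by norm_num : (0 : ℝ) < 3)
    linarith
  have h4 : (n : ℝ) * Real.log (dGH m n + m / n) ≤ n * (dGH m n + m / n - 1) :=
    mul_le_mul_of_nonneg_left h2 hn0.le
  have h5 : (n : ℝ) * (m / n) = m := by field_simp
  have h6 := mul_le_mul_of_nonneg_left h3 hm0.le
  nlinarith

end Pool.Agent.Lib.MP_fcccf2_gt
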