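import Mathlib
import Pool.Agent.Lib.MP_fcccf2_gt.Vol

set_option autoImplicit false

/-! Upper bounds from colourings by caps, and coverings of the sphere by caps. -/

open MeasureTheory Metric
open scoped ENNReal

namespace Pool.Agent.Lib.MP_fcccf2_gt

theorem exists_iso {m n : ℕ} (h : m ≤ n) : Nonempty (E m →ₗᵢ[ℝ] E n) := by
  let b := EuclideanSpace.basisFun (Fin m) ℝ
  let c := EuclideanSpace.basisFun (Fin n) ℝ
  have hc : Orthonormal ℝ (c ∘ Fin.castLE h) := c.orthonormal.comp _ (Fin.castLE_injective h)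
  refine ⟨LinearMap.isometryOfOrthonormal (b.toBasis.constr ℝ (c ∘ Fin.castLE h))
    (v := b.toBasis) b.orthonormal ?_⟩
  convert hc using 1
  funext i
  simp only [Function.comp_apply, Module.Basis.constr_basis]

theorem dist_le_of_cap {n : ℕ} {x y v : E n} {τ : ℝ} (hτ : 0 ≤ τ) (hτ2 : τ ^ 2 ≤ 1 / 2)
    (hv : ‖v‖ ≤ 1) (hx : ‖x‖ ≤ 1) (hy : ‖y‖ ≤ 1) (h1 : τ * ‖x‖ ≤ inner ℝ x v)
    (h2 : τ * ‖y‖ ≤ inner ℝ y v) : dist x y ≤ 2 - τ ^ 2 := by
  have hr := norm_nonneg x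
  have hs := norm_nonneg y
  have key : ‖x‖ * ‖y‖ * (2 * τ ^ 2 - 1) ≤ inner ℝ x y := by
    rcases (mul_nonneg hr hs).eq_or_lt with h0 | h0
    · have := abs_real_inner_le_norm x y
      rw [← h0] at this ⊢
      rw [abs_nonpos_iff.1 this]
      simp
    · have h3 := real_inner_le_norm (‖y‖ • x + ‖x‖ • y) v
      rw [inner_add_left, real_inner_smul_left, real_inner_smul_left] at h3
      have h4 : 2 * τ * (‖x‖ * ‖y‖) ≤ ‖‖y‖ • x + ‖x‖ • y‖ := by
        have a1 := mul_le_mul_of_nonneg_left h1 hs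
        have a2 := mul_le_mul_of_nonneg_left h2 hr
        have a3 := mul_le_of_le_one_right (norm_nonneg (‖y‖ • x + ‖x‖ • y)) hv
        nlinarith
      have h5 := pow_le_pow_left₀ (by positivity) h4 2
      rw [norm_add_sq_real, norm_smul, norm_smul, real_inner_smul_left, real_inner_smul_right,
        norm_norm, norm_norm] at h5
      refine le_of_mul_le_mul_left ?_ h0
      nlinarith
  rw [dist_eq_norm]
  refine (pow_le_pow_iff_left₀ (norm_nonneg _) (by linarith) two_ne_zero).1 ?_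
  rw [norm_sub_sq_real]
  have a1 : ‖x‖ * ‖y‖ ≤ 1 := mul_le_one₀ hx hs hy
  have a2 : ‖x‖ ^ 2 ≤ 1 := pow_le_one₀ hr hx
  have a3 : ‖y‖ ^ 2 ≤ 1 := pow_le_one₀ hs hy
  have a4 := mul_le_mul_of_nonneg_right a1 (by linarith : 0 ≤ 1 - 2 * τ ^ 2)
  nlinarith [sq_nonneg (τ ^ 2)]

/-- A colouring of the big ball by cones, with well separated colours in the small ball. -/
theorem dGH_le_of_colour {m n : ℕ} (hmn : m ≤ n) {ι : Type} (v : ι → E n) (p : ι → E m)
    {τ ε : ℝ} (hτ : 0 ≤ τ) (hτ2 : τ ^ 2 ≤ 1 / 2) (hε : 0 < ε) (hετ : ε ≤ τ ^ 2)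
    (hv : ∀ i, ‖v i‖ ≤ 1) (hcov : ∀ x, ∃ i, τ * ‖x‖ ≤ inner ℝ x (v i))
    (hp : ∀ i, ‖p i‖ ≤ 1 - ε) (hsep : ∀ i j, i ≠ j → ε ≤ dist (p i) (p j)) :
    dGH m n ≤ 1 - ε / 2 := by
  obtain ⟨J⟩ := exists_iso hmn
  choose c hc using hcov
  have hb : ∀ {k : ℕ} (x : Ball k), ‖x.1‖ ≤ 1 := fun x => mem_closedBall_zero_iff.1 x.2
  have hg : ∀ w : Ball m, ‖(ε / 2) • J w.1‖ ≤ ε / 2 := by
    intro w
    rw [norm_smul, J.norm_map, Real.norm_of_nonneg (by linarith)]
    exact mul_le_of_le_one_right (by linarith) (hb w)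
  let Φ : Ball n ⊕ Ball m → Ball m := Sum.elim
    (fun x => ⟨p (c x.1), mem_closedBall_zero_iff.2 ((hp _).trans (by linarith))⟩) id
  let Ψ : Ball n ⊕ Ball m → Ball n := Sum.elim id
    (fun w => ⟨(ε / 2) • J w.1, mem_closedBall_zero_iff.2 ((hg w).trans (by linarith))⟩)
  have hmix : ∀ (x : Ball n) (w : Ball m),
      |dist (p (c x.1)) w.1 - dist x.1 ((ε / 2) • J w.1)| ≤ 2 - ε := by
    intro x w
    have h1 := dist_le_norm_add_norm (p (c x.1)) w.1
    have h2 := dist_le_norm_add_norm x.1 ((ε / 2) • J w.1)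
    have h3 := dist_nonneg (x := p (c x.1)) (y := w.1)
    have h4 := dist_nonneg (x := x.1) (y := (ε / 2) • J w.1)
    have h5 := hp (c x.1)
    have h6 := hb x
    have h7 := hb w
    have h8 := hg w
    rw [abs_le]
    constructor <;> linarith
  refine gh_le_of_corr Φ Ψ (fun w => ⟨Sum.inr w, rfl⟩) (fun x => ⟨Sum.inl x, rfl⟩) (1 - ε / 2)
    (by linarith) ?_
  rw [show 2 * (1 - ε / 2) = 2 - ε by ring]
  rintro (x | w) (y | u)
  · change |dist (p (c x.1)) (p (c y.1)) - dist x.1 y.1| ≤ 2 - ε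
    have h3 := dist_nonneg (x := x.1) (y := y.1)
    by_cases h : c x.1 = c y.1
    · have h1 := dist_le_of_cap hτ hτ2 (hv (c x.1)) (hb x) (hb y) (hc x.1) (h ▸ hc y.1)
      rw [h, dist_self, zero_sub, abs_neg, abs_of_nonneg h3]
      linarith
    · have h1 := hsep _ _ h
      have h2 := dist_le_norm_add_norm (p (c x.1)) (p (c y.1))
      have h4 := dist_le_norm_add_norm x.1 y.1
      have h5 := hp (c x.1)
      have h6 := hp (c y.1)
      have h7 := hb x
      have h8 := hb y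
      rw [abs_le]
      constructor <;> linarith
  · exact hmix x u
  · rw [dist_comm (Φ _), dist_comm (Ψ _)]
    exact hmix y w
  · change |dist w.1 u.1 - dist ((ε / 2) • J w.1) ((ε / 2) • J u.1)| ≤ 2 - ε
    rw [dist_smul₀, J.dist_map, Real.norm_of_nonneg (by linarith)]
    have h1 := dist_le_norm_add_norm w.1 u.1
    have h2 := dist_nonneg (x := w.1) (y := u.1)
    have h3 := hb w
    have h4 := hb u
    rw [abs_le]
    constructor <;> nlinarith

theorem dGH_le_of_card {m n : ℕ} (hmn : m ≤ n) (V : Finset (E n))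
    {τ ε : ℝ} (hτ : 0 ≤ τ) (hτ2 : τ ^ 2 ≤ 1 / 2) (hε : 0 < ε) (hετ : ε ≤ τ ^ 2)
    (hv : ∀ v ∈ V, ‖v‖ ≤ 1) (hcov : ∀ x, ∃ v ∈ V, τ * ‖x‖ ≤ inner ℝ x v)
    (hcard : (V.card : ℝ) ≤ ((1 - ε) / ε) ^ m) : dGH m n ≤ 1 - ε / 2 := by
  have h1 : 0 ≤ 1 - ε := by linarith
  obtain ⟨S, hS1, hS2, hS3, -⟩ := exists_net (closedBall (0 : E m) (1 - ε)) h1 hε
    (fun x hx => mem_closedBall_zero_iff.1 hx)
  have h2 := pow_le_of_cover S (fun x => closedBall x ε) h1 hε.le (fun z hz => by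
    obtain ⟨x, hx, hx2⟩ := hS3 z hz
    simp only [Set.mem_iUnion]
    exact ⟨x, hx, hx2⟩) (fun x _ => by rw [vol_ball m x hε.le, vol_ball m 0 hε.le])
  have h3 : V.card ≤ S.card := by
    rw [div_pow, le_div_iff₀ (by positivity)] at hcard
    have := le_of_mul_le_mul_right (hcard.trans h2) (by positivity)
    exact_mod_cast this
  obtain ⟨e⟩ : Nonempty (V ↪ S) := by
    refine Function.Embedding.nonempty_of_card_le ?_
    simpa using h3
  refine dGH_le_of_colour hmn (fun i : V => i.1) (fun i => (e i).1) hτ hτ2 hε hετ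
    (fun i => hv _ i.2) (fun x => ?_) (fun i => mem_closedBall_zero_iff.1 (hS1 _ (e i).2))
    (fun i j hij => (hS2 _ (e i).2 _ (e j).2 fun h => hij (e.injective (Subtype.ext h))).le)
  obtain ⟨v, hv, h⟩ := hcov x
  exact ⟨⟨v, hv⟩, h⟩

/-- Lower bound for the volume of a cap, by an inscribed half ellipsoid. -/
theorem cap_vol {n : ℕ} (x : E n) (hx : ‖x‖ = 1) {a b θ : ℝ} (hb : 0 ≤ b) (hθ : 0 ≤ θ)
    (hθ1 : θ < 1) (hab : a ^ 2 / (1 - θ ^ 2) + b ^ 2 ≤ 1) :
    ENNReal.ofReal (θ / 2 * b ^ n) * volume (closedBall (0 : E n) 1) ≤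
      volume {v : E n | ‖v‖ ≤ 1 ∧ a ≤ inner ℝ x v} := by
  let H : Set (E n) := {u | ‖u‖ ≤ 1 ∧ 0 ≤ inner ℝ x u}
  have hH : volume (closedBall (0 : E n) 1) ≤ 2 * volume H := by
    have h1 : closedBall (0 : E n) 1 ⊆ H ∪ -H := by
      intro u hu
      rw [mem_closedBall_zero_iff] at hu
      rcases le_total 0 (inner ℝ x u) with h | h
      · exact Or.inl ⟨hu, h⟩
      · refine Or.inr ⟨by rwa [norm_neg], ?_⟩
        rw [inner_neg_right]
        linarith
    refine (measure_mono h1).trans ((measure_union_le _ _).trans ?_)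
    rw [Measure.measure_neg, two_mul]
  let L : E n →ₗ[ℝ] E n :=
    b • LinearMap.transvection (-(1 - θ) • (innerSL ℝ x).toLinearMap) x
  have hL : ∀ u, L u = b • (u + (-(1 - θ) * inner ℝ x u) • x) := fun u => rfl
  have hxx : inner ℝ x x = (1 : ℝ) := by rw [real_inner_self_eq_norm_sq, hx]; norm_num
  have hdet : LinearMap.det L = b ^ n * θ := by
    rw [LinearMap.det_smul, LinearMap.transvection.det, finrank_euclideanSpace_fin]
    congr 1
    change 1 + -(1 - θ) * inner ℝ x x = θ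
    rw [hxx]
    ring
  have hθ2 : 0 < 1 - θ ^ 2 := by nlinarith
  have hsub : L '' H ⊆ (fun v => a • x + v) ⁻¹' {v : E n | ‖v‖ ≤ 1 ∧ a ≤ inner ℝ x v} := by
    rintro _ ⟨u, ⟨hu1, hu2⟩, rfl⟩
    have e1 : inner ℝ x (L u) = b * θ * inner ℝ x u := by
      rw [hL, real_inner_smul_right, inner_add_right, real_inner_smul_right, hxx]
      ring
    have e2 : ‖L u‖ ^ 2 = b ^ 2 * (‖u‖ ^ 2 - (1 - θ ^ 2) * inner ℝ x u ^ 2) := by
      rw [hL, norm_smul, mul_pow, norm_add_sq_real, norm_smul, real_inner_smul_right, hx,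
        real_inner_comm x u]
      simp only [Real.norm_eq_abs, mul_one, sq_abs]
      ring
    constructor
    · refine (pow_le_one_iff_of_nonneg (norm_nonneg _) two_ne_zero).1 ?_
      rw [norm_add_sq_real, e2, real_inner_smul_left, e1, norm_smul, hx]
      simp only [Real.norm_eq_abs, mul_one, sq_abs]
      have h1 : ‖u‖ ^ 2 ≤ 1 := pow_le_one₀ (norm_nonneg _) hu1
      have h2 := mul_le_mul_of_nonneg_left h1 (sq_nonneg b)
      set s := inner ℝ x u
      set q := a ^ 2 / (1 - θ ^ 2) with hq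
      have h3 : a ^ 2 = q * (1 - θ ^ 2) := by rw [hq]; field_simp
      have h4 : a ^ 2 + 2 * (a * (b * θ * s)) - b ^ 2 * ((1 - θ ^ 2) * s ^ 2) ≤ q := by
        refine le_of_mul_le_mul_right ?_ hθ2
        rw [← h3]
        nlinarith [sq_nonneg (a * θ - (1 - θ ^ 2) * b * s)]
      nlinarith
    · change a ≤ inner ℝ x (a • x + L u)
      rw [inner_add_right, real_inner_smul_right, hxx, e1]
      have := mul_nonneg (mul_nonneg hb hθ) hu2
      linarith
  have h2 := measure_mono (μ := volume) hsub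
  rw [measure_preimage_add, Measure.addHaar_image_linearMap, hdet,
    abs_of_nonneg (by positivity)] at h2
  refine le_trans ?_ h2
  refine (mul_le_mul_right hH _).trans (le_of_eq ?_)
  rw [← mul_assoc]
  congr 1
  rw [← ENNReal.ofReal_ofNat 2, ← ENNReal.ofReal_mul (by positivity)]
  congr 1
  ring

/-- Random covering. -/
theorem exists_cover {n : ℕ} (X : Finset (E n)) (C : E n → Set (E n))
    (hC : ∀ x, MeasurableSet (C x)) (hCB : ∀ x, C x ⊆ closedBall (0 : E n) 1) {p : ℝ}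
    (hp0 : 0 ≤ p) (hp1 : p ≤ 1)
    (hp : ∀ x ∈ X, ENNReal.ofReal p * volume (closedBall (0 : E n) 1) ≤ volume (C x)) (j : ℕ)
    (hj : X.card * (1 - p) ^ j < 1) :
    ∃ v : Fin j → E n, (∀ i, ‖v i‖ ≤ 1) ∧ ∀ x ∈ X, ∃ i, v i ∈ C x := by
  by_contra hcon
  push Not at hcon
  set B := closedBall (0 : E n) 1 with hB
  have h1 : Set.univ.pi (fun _ : Fin j => B) ⊆
      ⋃ x ∈ X, Set.univ.pi fun _ : Fin j => B \ C x := by
    intro v hv
    obtain ⟨x, hx, hx2⟩ := hcon v fun i => mem_closedBall_zero_iff.1 (hv i trivial)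
    simp only [Set.mem_iUnion]
    exact ⟨x, hx, fun i _ => ⟨hv i trivial, hx2 i⟩⟩
  have h2 := (measure_mono h1).trans (measure_biUnion_finset_le (μ := volume) X _)
  have h3 : ∀ x ∈ X, volume (Set.univ.pi fun _ : Fin j => B \ C x) ≤
      ENNReal.ofReal ((1 - p) ^ j) * volume B ^ j := by
    intro x hx
    rw [volume_pi_pi, Finset.prod_const, Finset.card_univ, Fintype.card_fin,
      ENNReal.ofReal_pow (by linarith), ← mul_pow]
    refine pow_le_pow_left' ?_ j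
    rw [measure_sdiff (hCB x) (hC x).nullMeasurableSet
      (ne_top_of_le_ne_top (vol_unit_fin n) (measure_mono (hCB x))), tsub_le_iff_right]
    refine le_trans (le_of_eq ?_) (add_le_add_right (hp x hx) _)
    rw [← add_mul, ← ENNReal.ofReal_add (by linarith) hp0]
    simp
  have h4 := h2.trans (Finset.sum_le_card_nsmul X _ _ h3)
  rw [volume_pi_pi, Finset.prod_const, Finset.card_univ, Fintype.card_fin, nsmul_eq_mul,
    ← mul_assoc, ← ENNReal.ofReal_natCast, ← ENNReal.ofReal_mul (Nat.cast_nonneg _)] at h4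
  have h5 : volume B ^ j ≠ 0 := pow_ne_zero _ (vol_unit_pos n)
  have h6 : volume B ^ j ≠ ⊤ := ENNReal.pow_ne_top (vol_unit_fin n)
  have h7 := (ENNReal.mul_le_mul_iff_left h5 h6).1 ((one_mul _).trans_le h4)
  rw [ENNReal.one_le_ofReal] at h7
  linarith

/-- From a statement on a net of the sphere to all vectors. -/
theorem cover_of_net {n : ℕ} (X V : Finset (E n)) {τ ζ : ℝ} (hV0 : V.Nonempty)
    (hV : ∀ v ∈ V, ‖v‖ ≤ 1) (hX : ∀ z, ‖z‖ = 1 → ∃ x ∈ X, dist z x ≤ ζ)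
    (hXV : ∀ x ∈ X, ∃ v ∈ V, τ + ζ ≤ inner ℝ x v) (z : E n) :
    ∃ v ∈ V, τ * ‖z‖ ≤ inner ℝ z v := by
  rcases eq_or_ne z 0 with rfl | hz
  · obtain ⟨v, hv⟩ := hV0
    exact ⟨v, hv, by simp⟩
  have hz' : 0 < ‖z‖ := norm_pos_iff.2 hz
  obtain ⟨x, hx, hx2⟩ := hX (‖z‖⁻¹ • z) (by
    rw [norm_smul, norm_inv, norm_norm, inv_mul_cancel₀ hz'.ne'])
  obtain ⟨v, hv, hv2⟩ := hXV x hx
  refine ⟨v, hv, ?_⟩
  have h1 := abs_real_inner_le_norm (‖z‖⁻¹ • z - x) v
  rw [← dist_eq_norm, inner_sub_left, real_inner_smul_left] at h1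
  have h2 := mul_le_of_le_one_right (dist_nonneg (x := ‖z‖⁻¹ • z) (y := x)) (hV v hv)
  have h3 := (abs_le.1 h1).1
  have h4 : τ ≤ ‖z‖⁻¹ * inner ℝ z v := by linarith
  rwa [le_inv_mul_iff₀ hz', mul_comm] at h4

/-- Covering of the sphere by caps close to hemispheres. -/
theorem exists_caps (n : ℕ) {τ ζ b θ : ℝ} (hζ : 0 < ζ) (hb : 0 < b) (hθ : 0 < θ) (hθ1 : θ < 1)
    (hab : (τ + ζ) ^ 2 / (1 - θ ^ 2) + b ^ 2 ≤ 1) :
    ∃ V : Finset (E n), (∀ v ∈ V, ‖v‖ ≤ 1) ∧ (∀ z, ∃ v ∈ V, τ * ‖z‖ ≤ inner ℝ z v) ∧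
      (V.card : ℝ) ≤ n * Real.log (1 + 2 / ζ) / (θ / 2 * b ^ n) + 1 := by
  classical
  obtain ⟨X, hX1, -, hX3, hX4⟩ := exists_net (sphere (0 : E n) 1) zero_le_one hζ
    (fun x hx => (mem_sphere_zero_iff_norm.1 hx).le)
  rw [mul_one] at hX4
  set p := θ / 2 * b ^ n with hp
  have hp0 : 0 < p := by positivity
  have hθ2 : 0 < 1 - θ ^ 2 := by nlinarith
  have hb1 : b ≤ 1 := by
    have : 0 ≤ (τ + ζ) ^ 2 / (1 - θ ^ 2) := by positivity
    nlinarith
  have hp1 : p ≤ 1 := by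
    have := pow_le_one₀ (n := n) hb.le hb1
    nlinarith
  have hl : 0 ≤ Real.log (1 + 2 / ζ) := Real.log_nonneg (by
    have : 0 < 2 / ζ := by positivity
    linarith)
  set y := n * Real.log (1 + 2 / ζ) / p with hy
  have hy0 : 0 ≤ y := by positivity
  obtain ⟨v, hv1, hv2⟩ := exists_cover X (fun x => {v : E n | ‖v‖ ≤ 1 ∧ τ + ζ ≤ inner ℝ x v})
    (fun x => (IsClosed.inter (s₁ := {v : E n | ‖v‖ ≤ 1})
      (s₂ := {v : E n | τ + ζ ≤ inner ℝ x v}) (isClosed_le continuous_norm continuous_const)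
      (isClosed_le continuous_const (by fun_prop))).measurableSet)
    (fun x v hv => mem_closedBall_zero_iff.2 hv.1) hp0.le hp1
    (fun x hx => cap_vol x (mem_sphere_zero_iff_norm.1 (hX1 x hx)) hb.le hθ.le hθ1 hab)
    (⌊y⌋₊ + 1) (by
      have h1 : (1 - p) ^ (⌊y⌋₊ + 1) ≤ Real.exp (-p) ^ (⌊y⌋₊ + 1) :=
        pow_le_pow_left₀ (by linarith) (Real.one_sub_le_exp_neg p) _
      have h2 : (1 + 2 / ζ) ^ n = Real.exp (p * y) := by
        rw [hy, mul_div_cancel₀ _ hp0.ne', Real.exp_nat_mul, Real.exp_log (by positivity)]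
      rw [h2] at hX4
      rw [← Real.exp_nat_mul] at h1
      refine (mul_le_mul hX4 h1 (pow_nonneg (by linarith) _) (Real.exp_pos _).le).trans_lt ?_
      rw [← Real.exp_add, Real.exp_lt_one_iff]
      have h3 := Nat.lt_floor_add_one y
      push_cast
      nlinarith)
  refine ⟨Finset.univ.image v, ?_, ?_, ?_⟩
  · intro w hw
    obtain ⟨i, -, rfl⟩ := Finset.mem_image.1 hw
    exact hv1 i
  · refine cover_of_net X _ (ζ := ζ) (Finset.univ_nonempty.image v) ?_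
      (fun z hz => hX3 z (mem_sphere_zero_iff_norm.2 hz)) ?_
    · intro w hw
      obtain ⟨i, -, rfl⟩ := Finset.mem_image.1 hw
      exact hv1 i
    · intro x hx
      obtain ⟨i, hi⟩ := hv2 x hx
      exact ⟨v i, Finset.mem_image_of_mem _ (Finset.mem_univ _), hi.2⟩
  · have h1 : (Finset.univ.image v).card ≤ ⌊y⌋₊ + 1 := by
      simpa using Finset.card_image_le (s := Finset.univ) (f := v)
    have h2 : ((Finset.univ.image v).card : ℝ) ≤ ⌊y⌋₊ + 1 := by exact_mod_cast h1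
    linarith [Nat.floor_le hy0]

end Pool.Agent.Lib.MP_fcccf2_gt
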