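import Mathlib
import Pool.Agent.Lib.MP_fcccf2_gt.Colour

set_option autoImplicit false

/-! Upper bounds for the distance in all regimes. -/

open Metric

namespace Pool.Agent.Lib.MP_fcccf2_gt

theorem dGH_le_ratio {m n K : ℕ} (hmn : m ≤ n) (hn : 0 < n) (hK : n ≤ K * m) :
    dGH m n ≤ 1 - 1 / (1 + 5 ^ K) / 2 := by
  obtain ⟨X, hX1, -, hX3, hX4⟩ := exists_net (sphere (0 : E n) 1) zero_le_one
    (r := 1 / 2) (by norm_num) (fun x hx => (mem_sphere_zero_iff_norm.1 hx).le)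
  have hK1 : 1 ≤ K := by
    rcases Nat.eq_zero_or_pos K with rfl | h
    · omega
    · exact h
  have h5 : (5 : ℝ) ≤ 5 ^ K := le_self_pow₀ (by norm_num) (by omega)
  have hV : ∀ v ∈ X, ‖v‖ = 1 := fun v hv => mem_sphere_zero_iff_norm.1 (hX1 v hv)
  refine dGH_le_of_card hmn X (τ := 1 / 2) (by norm_num) (by norm_num) (by positivity) ?_
    (fun v hv => (hV v hv).le) ?_ ?_
  · rw [div_le_iff₀ (by positivity)]
    linarith
  · refine cover_of_net X X (ζ := 1 / 2) ?_ (fun v hv => (hV v hv).le)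
      (fun z hz => hX3 z (mem_sphere_zero_iff_norm.2 hz)) fun x hx => ⟨x, hx, ?_⟩
    · obtain ⟨x, hx, -⟩ := hX3 (EuclideanSpace.single ⟨0, hn⟩ 1) (by simp)
      exact ⟨x, hx⟩
    · rw [real_inner_self_eq_norm_sq, hV x hx]
      norm_num
  · have e : (1 - 1 / (1 + 5 ^ K)) / (1 / (1 + 5 ^ K)) = (5 : ℝ) ^ K := by
      field_simp
      ring
    rw [e, ← pow_mul]
    refine hX4.trans ?_
    norm_num
    exact pow_le_pow_right₀ (by norm_num) hK

theorem dGH_le_one {m n : ℕ} (hm : 1 ≤ m) (hmn : m ≤ n) : dGH m n ≤ 1 := by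
  have h := dGH_le_ratio (K := n) hmn (by omega) (Nat.le_mul_of_pos_right n hm)
  have : (0 : ℝ) < 1 / (1 + 5 ^ n) / 2 := by positivity
  linarith

theorem exists_big_coord {n : ℕ} (hn : 0 < n) (x : E n) : ∃ i, 1 / √n * ‖x‖ ≤ |x i| := by
  have : Nonempty (Fin n) := ⟨⟨0, hn⟩⟩
  have hn0 : (0 : ℝ) < n := by exact_mod_cast hn
  obtain ⟨i, -, hi⟩ := Finset.exists_max_image Finset.univ (fun i => |x i|) Finset.univ_nonempty
  refine ⟨i, ?_⟩
  have h1 : ‖x‖ ^ 2 ≤ n * |x i| ^ 2 := by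
    rw [EuclideanSpace.norm_sq_eq]
    have := Finset.sum_le_card_nsmul Finset.univ (fun j => ‖x j‖ ^ 2) (|x i| ^ 2) fun j _ =>
      pow_le_pow_left₀ (norm_nonneg _) (hi j (Finset.mem_univ _)) 2
    simpa using this
  refine (pow_le_pow_iff_left₀ (by positivity) (abs_nonneg _) two_ne_zero).1 ?_
  rw [mul_pow, div_pow, Real.sq_sqrt hn0.le, one_pow, one_div, inv_mul_le_iff₀ hn0]
  exact h1

/-- The cross-polytope colouring. -/
theorem dGH_line_le {n : ℕ} (hn : 2 ≤ n) : dGH 1 n ≤ 1 - 1 / (2 * n + 1) := by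
  have hn0 : (2 : ℝ) ≤ n := by exact_mod_cast hn
  set ε : ℝ := 2 / (2 * n + 1) with hε
  have hε0 : 0 < ε := by positivity
  have hε1 : ε * (2 * n + 1) = 2 := by rw [hε]; field_simp
  have hsq : (1 / √n : ℝ) ^ 2 = 1 / n := by rw [div_pow, Real.sq_sqrt (by linarith), one_pow]
  let k : Fin n × Bool → ℕ := fun q => 2 * q.1 + if q.2 then 1 else 0
  have hk : Function.Injective k := by
    rintro ⟨i, s⟩ ⟨j, t⟩ h
    simp only [k] at h
    cases s <;> cases t <;> simp only [Bool.false_eq_true, if_true, if_false] at h <;>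
      first | omega | (rw [Fin.ext (by omega : (i : ℕ) = j)])
  have hk2 : ∀ q, k q + 1 ≤ 2 * n := by
    rintro ⟨i, s⟩
    have := i.2
    simp only [k]
    split_ifs <;> omega
  have h := dGH_le_of_colour (m := 1) (n := n) (by omega)
    (fun q : Fin n × Bool => EuclideanSpace.single q.1 (if q.2 then (1 : ℝ) else -1))
    (fun q => EuclideanSpace.single 0 (-(1 - ε) + k q * ε)) (τ := 1 / √n) (ε := ε)
    (by positivity) ?_ hε0 ?_ ?_ ?_ ?_ ?_
  · refine h.trans (le_of_eq ?_)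
    rw [hε]
    field_simp
  · rw [hsq]
    exact one_div_le_one_div_of_le (by norm_num) hn0
  · rw [hsq, hε, div_le_div_iff₀ (by positivity) (by positivity)]
    linarith
  · rintro ⟨i, s⟩
    cases s <;> simp
  · intro x
    obtain ⟨i, hi⟩ := exists_big_coord (by omega) x
    rcases abs_cases (x i) with h | h
    · exact ⟨(i, true), by simpa [EuclideanSpace.inner_single_right, h.1] using hi⟩
    · exact ⟨(i, false), by simpa [EuclideanSpace.inner_single_right, h.1] using hi⟩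
  · intro q
    rw [PiLp.norm_single, Real.norm_eq_abs, abs_le]
    have h1 : (k q : ℝ) + 1 ≤ 2 * n := by exact_mod_cast hk2 q
    have h2 : (0 : ℝ) ≤ k q := Nat.cast_nonneg _
    constructor <;> nlinarith
  · intro q r hqr
    rw [PiLp.dist_single_same, Real.dist_eq,
      show -(1 - ε) + k q * ε - (-(1 - ε) + k r * ε) = (k q - k r) * ε by ring, abs_mul,
      abs_of_pos hε0]
    refine le_mul_of_one_le_left hε0.le ?_
    have h1 : (k q : ℤ) - k r ≠ 0 := fun h => hqr (hk (by omega))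
    exact_mod_cast Int.one_le_abs h1

theorem aux_ab {t n : ℝ} (ht : 1 ≤ t) (hn0 : 0 < n) (hs1 : (t + 5) / n ≤ 1 / 2) :
    (√(t / n) + √(t / n) * (1 / (t + 3))) ^ 2 / (1 - √(1 / (t + 3)) ^ 2) +
      Real.exp (-((t + 5) / n / 2 + ((t + 5) / n) ^ 2)) ^ 2 ≤ 1 := by
  have hy0 : 0 < 1 / (t + 3) := by positivity
  have hy1 : 1 / (t + 3) * (t + 3) = 1 := by field_simp
  have hy2 : 1 / (t + 3) ≤ 1 / 4 := one_div_le_one_div_of_le (by norm_num) (by linarith)
  have hε0 : 0 < t / n := by positivity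
  have h2 : t / n * (1 + 5 * (1 / (t + 3))) ≤ (t + 5) / n := by
    rw [div_mul_eq_mul_div]
    refine div_le_div_of_nonneg_right ?_ hn0.le
    nlinarith
  have hs0 : 0 < (t + 5) / n := by positivity
  generalize 1 / (t + 3) = y at *
  generalize (t + 5) / n = s at *
  generalize t / n = ε at *
  have h1 : (√ε + √ε * y) ^ 2 / (1 - √y ^ 2) ≤ s := by
    rw [Real.sq_sqrt hy0.le, div_le_iff₀ (by linarith),
      show (√ε + √ε * y) ^ 2 = √ε ^ 2 * (1 + y) ^ 2 by ring, Real.sq_sqrt hε0.le]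
    have h3 : (1 + y) ^ 2 ≤ (1 + 5 * y) * (1 - y) := by nlinarith
    have h4 := mul_le_mul_of_nonneg_left h3 hε0.le
    have h5 := mul_le_mul_of_nonneg_right h2 (by linarith : 0 ≤ 1 - y)
    linarith
  have h6 : Real.exp (-(s / 2 + s ^ 2)) ^ 2 ≤ 1 - s := by
    rw [← Real.exp_nat_mul, show ((2 : ℕ) : ℝ) * -(s / 2 + s ^ 2) = -(s + 2 * s ^ 2) by
      push_cast; ring, Real.exp_neg, inv_le_iff_one_le_mul₀ (Real.exp_pos _)]
    have h3 := mul_le_mul_of_nonneg_left (Real.add_one_le_exp (s + 2 * s ^ 2))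
      (by linarith : 0 ≤ 1 - s)
    have h4 := mul_nonneg (sq_nonneg s) (by linarith : 0 ≤ 1 - 2 * s)
    linarith
  linarith

theorem aux_R {m L t n : ℝ} (hm : 1 ≤ m) (hL : 0 ≤ L) (ht : 1 ≤ t) (ht2 : t ≤ 2 * (m * L))
    (hn : n = m * Real.exp L) (hε : t / n ≤ 1 / 2) :
    Real.exp (L - 2 * Real.log (2 + L)) ≤ (1 - t / n) / (t / n) := by
  have hn0 : 0 < n := by rw [hn]; positivity
  rw [le_div_iff₀ (by positivity), ← mul_div_assoc, Real.exp_sub, two_mul, Real.exp_add,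
    Real.exp_log (by linarith)]
  have h1 : Real.exp L / ((2 + L) * (2 + L)) * t / n ≤ 1 / 2 := by
    rw [div_le_iff₀ hn0, div_mul_eq_mul_div, div_le_iff₀ (by positivity), hn]
    have h2 : t ≤ 1 / 2 * m * ((2 + L) * (2 + L)) := by
      nlinarith [mul_nonneg (by linarith : 0 ≤ m) (mul_nonneg hL hL)]
    have h3 := mul_le_mul_of_nonneg_left h2 (Real.exp_pos L).le
    linarith
  linarith

theorem aux_A {m L t n : ℝ} (hm : 1 ≤ m) (hL : 0 ≤ L) (ht : 1 ≤ t)
    (hn : n = m * Real.exp L) (htn : t + 3 ≤ n) :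
    Real.log (1 + 2 / (√(t / n) * (1 / (t + 3)))) ≤ 3 * (m * (2 + L)) := by
  have hn0 : 0 < n := by linarith
  have h1 : 1 / n ≤ √(t / n) := by
    refine Real.le_sqrt_of_sq_le ?_
    rw [div_pow, div_le_div_iff₀ (by positivity) hn0]
    have : 1 * n ≤ n * n := mul_le_mul_of_nonneg_right (by linarith) hn0.le
    have : 1 * n ^ 2 ≤ t * n ^ 2 := mul_le_mul_of_nonneg_right ht (by positivity)
    linarith
  have h2 : 1 / n ≤ 1 / (t + 3) := one_div_le_one_div_of_le (by linarith) htn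
  have h3 : 1 / n * (1 / n) ≤ √(t / n) * (1 / (t + 3)) :=
    mul_le_mul h1 h2 (by positivity) (Real.sqrt_nonneg _)
  have h4 : 2 / (√(t / n) * (1 / (t + 3))) ≤ 2 * n ^ 2 := by
    refine (div_le_div_of_nonneg_left (by norm_num) (by positivity) h3).trans (le_of_eq ?_)
    field_simp
  have h5 : 1 + 2 / (√(t / n) * (1 / (t + 3))) ≤ n ^ 3 := by
    have a1 : 4 * n ^ 2 ≤ n * n ^ 2 := mul_le_mul_of_nonneg_right (by linarith) (by positivity)
    have a2 : 1 ≤ n ^ 2 := one_le_pow₀ (by linarith)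
    linarith
  refine (Real.log_le_log (by positivity) h5).trans ?_
  rw [Real.log_pow, hn, Real.log_mul (by positivity) (Real.exp_pos _).ne', Real.log_exp]
  have h6 := Real.log_le_sub_one_of_pos (by linarith : (0 : ℝ) < m)
  have h7 := mul_le_mul_of_nonneg_right hm hL
  push_cast
  linarith

theorem aux_C {m L t n : ℝ} (hm : 1 ≤ m) (hL : 13 ≤ L) (ht : 1 ≤ t) (ht2 : t ≤ 2 * (m * L))
    (hn : m * L * (L ^ 2 / 6) ≤ n) :
    -(t / 2 + 8 * m) ≤ n * -((t + 5) / n / 2 + ((t + 5) / n) ^ 2) := by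
  have hmL : 13 ≤ m * L := by nlinarith
  have h5 : 2 * L ≤ L ^ 2 / 6 := by nlinarith
  have h6 : m * L * (2 * L) ≤ n := (mul_le_mul_of_nonneg_left h5 (by linarith)).trans hn
  have hn0 : 0 < n := lt_of_lt_of_le (by positivity) h6
  have h2 : (t + 5) * (t + 5) / n ≤ 5 * m := by
    rw [div_le_iff₀ hn0]
    have h3 : t + 5 ≤ 3 * (m * L) := by linarith
    have h4 := mul_le_mul h3 h3 (by linarith) (by linarith)
    have h7 := mul_le_mul_of_nonneg_left h6 (by linarith : (0 : ℝ) ≤ 5 * m)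
    have h8 : 0 ≤ (m * L) ^ 2 := sq_nonneg _
    linarith
  have h3 : n * -((t + 5) / n / 2 + ((t + 5) / n) ^ 2) =
      -((t + 5) / 2 + (t + 5) * (t + 5) / n) := by field_simp
  rw [h3]
  linarith

theorem aux_F {m X : ℝ} (hm : 1 ≤ m) (hX : 0 ≤ X) :
    18 * (m ^ 3 * Real.exp X) + 1 ≤ Real.exp (7 * m + X) := by
  have hme : m ≤ Real.exp m := by linarith [Real.add_one_le_exp m]
  have hE : m ^ 3 ≤ Real.exp (3 * m) := by
    rw [show (3 : ℝ) * m = ((3 : ℕ) : ℝ) * m by norm_num, Real.exp_nat_mul]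
    exact pow_le_pow_left₀ (by linarith) hme 3
  have hF : (19 : ℝ) ≤ Real.exp (4 * m) := by
    have h2 : Real.exp 4 ≤ Real.exp (4 * m) := Real.exp_le_exp.2 (by linarith)
    have h3 : Real.exp 4 = Real.exp 1 ^ 4 := by rw [← Real.exp_nat_mul]; norm_num
    have h4 := pow_le_pow_left₀ (by norm_num : (0 : ℝ) ≤ 2.7)
      (le_of_lt (lt_trans (by norm_num) Real.exp_one_gt_d9)) 4
    norm_num at h4
    linarith
  have hG : 1 ≤ m ^ 3 * Real.exp X :=
    one_le_mul_of_one_le_of_one_le (one_le_pow₀ hm) (Real.one_le_exp hX)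
  calc _ ≤ 19 * (m ^ 3 * Real.exp X) := by linarith
    _ ≤ Real.exp (4 * m) * (Real.exp (3 * m) * Real.exp X) := by gcongr
    _ = _ := by
      rw [← Real.exp_add, ← Real.exp_add]
      congr 1
      ring

theorem sharp_aux {m n : ℕ} (hm : 1 ≤ m) (hmn : m ≤ n) {L t : ℝ} (hn : (n : ℝ) = m * Real.exp L)
    (hL : 13 ≤ L) (ht1 : 1 ≤ t) (ht : t / 2 ≤ (m - 1) * L - 19 * m * Real.log (2 + L)) :
    dGH m n ≤ 1 - t / n / 2 := by
  have hm0 : (1 : ℝ) ≤ m := by exact_mod_cast hm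
  have hΛ1 : 1 ≤ Real.log (2 + L) := by
    rw [Real.le_log_iff_exp_le (by linarith)]
    linarith [Real.exp_one_lt_d9]
  have hmΛ := mul_le_mul_of_nonneg_left hΛ1 (by linarith : (0 : ℝ) ≤ m)
  have hΛm := mul_le_mul_of_nonneg_right hm0 (by linarith : 0 ≤ Real.log (2 + L))
  have hmL : 13 ≤ m * L := by nlinarith
  have ht2 : t ≤ 2 * (m * L) := by linarith
  have he : L ^ 3 / 6 ≤ Real.exp L := by
    have := Real.pow_div_factorial_le_exp L (by linarith) 3
    norm_num [Nat.factorial] at this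
    exact this
  have hn2 : m * L * (L ^ 2 / 6) ≤ n := by
    have := mul_le_mul_of_nonneg_left he (by linarith : (0 : ℝ) ≤ m)
    linarith
  have hn3 : m * L * 28 ≤ n := by
    have : 28 ≤ L ^ 2 / 6 := by nlinarith
    exact (mul_le_mul_of_nonneg_left this (by linarith)).trans hn2
  have hn0 : (0 : ℝ) < n := by linarith
  have hε0 : 0 < t / n := by positivity
  have hy0 : 0 < 1 / (t + 3) := by positivity
  have hy2 : 1 / (t + 3) < 1 := by rw [div_lt_one (by linarith)]; linarith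
  have hs1 : (t + 5) / n ≤ 1 / 2 := by rw [div_le_iff₀ hn0]; linarith
  have hε1 : t / n ≤ 1 / 2 := by rw [div_le_iff₀ hn0]; linarith
  have hτ : √(t / n) ^ 2 = t / n := Real.sq_sqrt hε0.le
  have hτ0 : 0 < √(t / n) := Real.sqrt_pos.2 hε0
  have hθ0 : 0 < √(1 / (t + 3)) := Real.sqrt_pos.2 hy0
  have hθ1 : √(1 / (t + 3)) < 1 := by rwa [Real.sqrt_lt' one_pos, one_pow]
  obtain ⟨V, hV1, hV2, hV3⟩ := exists_caps n (by positivity) (Real.exp_pos _) hθ0 hθ1
    (aux_ab ht1 hn0 hs1)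
  refine dGH_le_of_card hmn V hτ0.le (by linarith) hε0 hτ.ge hV1 hV2 (hV3.trans ?_)
  have hR : Real.exp (m * (L - 2 * Real.log (2 + L))) ≤ ((1 - t / n) / (t / n)) ^ m := by
    rw [Real.exp_nat_mul]
    exact pow_le_pow_left₀ (Real.exp_pos _).le (aux_R hm0 (by linarith) ht1 ht2 hn hε1) m
  refine le_trans ?_ hR
  have hA := aux_A hm0 (by linarith) ht1 hn (by linarith)
  have hB : 1 / (3 * (m * (2 + L))) ≤ √(1 / (t + 3)) := by
    have h1 : 1 / (t + 3) ≤ √(1 / (t + 3)) := Real.le_sqrt_of_sq_le (by nlinarith)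
    exact (one_div_le_one_div_of_le (by linarith) (by linarith)).trans h1
  have hC : Real.exp (-(t / 2 + 8 * m)) ≤
      Real.exp (-((t + 5) / n / 2 + ((t + 5) / n) ^ 2)) ^ n := by
    rw [← Real.exp_nat_mul, Real.exp_le_exp]
    exact aux_C hm0 hL ht1 ht2 hn2
  have hD := div_le_div₀ (by positivity) (mul_le_mul_of_nonneg_left hA hn0.le) (by positivity)
      (mul_le_mul (div_le_div_of_nonneg_right hB (by norm_num : (0 : ℝ) ≤ 2)) hC
        (Real.exp_pos _).le (by positivity))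
  have hE : n * (3 * (m * (2 + L))) / (1 / (3 * (m * (2 + L))) / 2 * Real.exp (-(t / 2 + 8 * m)))
      = 18 * (m ^ 3 * Real.exp (L + 2 * Real.log (2 + L) + (t / 2 + 8 * m))) := by
    rw [hn, Real.exp_neg, Real.exp_add (L + 2 * Real.log (2 + L)), Real.exp_add L,
      two_mul (Real.log (2 + L)), Real.exp_add (Real.log (2 + L)), Real.exp_log (by linarith)]
    field_simp
    ring
  rw [hE] at hD
  refine (add_le_add_left hD 1).trans ((aux_F hm0 (by linarith)).trans ?_)
  rw [Real.exp_le_exp]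
  linarith

theorem sharp_lower (m n : ℕ) (hm : 1 ≤ m) (hmn : m < n) :
    (m - 1) * Real.log (n / m) - 20 * m * Real.log (2 + Real.log (n / m)) ≤
      n * (1 - dGH m n) := by
  have hm0 : (1 : ℝ) ≤ m := by exact_mod_cast hm
  have hmn' : (m : ℝ) < n := by exact_mod_cast hmn
  have hn0 : (0 : ℝ) < n := by linarith
  set L := Real.log (n / m) with hL
  have hL0 : 0 ≤ L := Real.log_nonneg (by rw [le_div_iff₀ (by linarith)]; linarith)
  have hn : (n : ℝ) = m * Real.exp L := by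
    rw [hL, Real.exp_log (by positivity)]
    field_simp
  set Λ := Real.log (2 + L) with hΛ
  have hΛ1 : 0.69 ≤ Λ :=
    le_trans (le_of_lt (lt_trans (by norm_num) Real.log_two_gt_d9))
      (Real.log_le_log (by norm_num) (by linarith))
  have hmΛ : 0.69 * m ≤ m * Λ := by nlinarith
  rcases le_total 1 (2 * ((m - 1) * L - 19 * m * Λ)) with h | h
  · have hL13 : 13 ≤ L := by
      by_contra hc
      push Not at hc
      nlinarith
    have h1 := sharp_aux hm hmn.le hn hL13 h (le_of_eq (by ring))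
    have h2 : n * (2 * ((m - 1) * L - 19 * m * Λ) / n / 2) = (m - 1) * L - 19 * m * Λ := by
      field_simp
    nlinarith
  · have h1 := dGH_le_one hm hmn.le
    have h2 : 0 ≤ n * (1 - dGH m n) := mul_nonneg hn0.le (by linarith)
    nlinarith

theorem order_lower : ∃ c : ℝ, 0 < c ∧ ∀ m n : ℕ, 1 ≤ m → m < n →
    c * (m + (m - 1) * Real.log (n / m)) ≤ n * (1 - dGH m n) := by
  set K := ⌈Real.exp 30000⌉₊ with hK
  have hc0 : (0 : ℝ) < 1 / (1 + 5 ^ K) / 2 := by positivity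
  refine ⟨min (1 / 4) (1 / (1 + 5 ^ K) / 2), lt_min (by norm_num) hc0, fun m n hm hmn => ?_⟩
  have hm0 : (1 : ℝ) ≤ m := by exact_mod_cast hm
  have hmn' : (m : ℝ) < n := by exact_mod_cast hmn
  have hn0 : (0 : ℝ) < n := by linarith
  have hs := sharp_lower m n hm hmn
  set L := Real.log (n / m) with hL
  have hL0 : 0 ≤ L := Real.log_nonneg (by rw [le_div_iff₀ (by linarith)]; linarith)
  have hn : (n : ℝ) = m * Real.exp L := by
    rw [hL, Real.exp_log (by positivity)]
    field_simp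
  have hpos : 0 ≤ m + (m - 1) * L := by nlinarith
  rcases le_total L 30000 with h | h
  · refine (mul_le_mul_of_nonneg_right (min_le_right _ _) hpos).trans ?_
    have h1 : (n : ℝ) ≤ K * m := by
      have h2 : Real.exp L ≤ K := (Real.exp_le_exp.2 h).trans (Nat.le_ceil _)
      rw [hn]
      nlinarith
    have h2 := dGH_le_ratio (K := K) hmn.le (by omega) (by exact_mod_cast h1)
    have h3 : m + (m - 1) * L ≤ n := by
      rw [hn]
      nlinarith [Real.add_one_le_exp L]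
    generalize 1 / (1 + 5 ^ K) / 2 = c0 at *
    nlinarith
  · refine (mul_le_mul_of_nonneg_right (min_le_left _ _) hpos).trans ?_
    rcases hm.eq_or_lt with rfl | hm2
    · have h1 := dGH_line_le (n := n) hmn
      have h2 : 1 / 4 ≤ n * (1 / (2 * n + 1) : ℝ) := by
        rw [mul_one_div, le_div_iff₀ (by positivity)]
        push_cast at hmn'
        linarith
      push_cast
      nlinarith
    · have hm3 : (2 : ℝ) ≤ m := by exact_mod_cast hm2
      have h1 : 80 * Real.log (2 + L) ≤ L := by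
        have hw : √(2 + L) ^ 2 = 2 + L := Real.sq_sqrt (by linarith)
        have hw1 : 170 ≤ √(2 + L) := Real.le_sqrt_of_sq_le (by linarith)
        have h2 := Real.log_le_sub_one_of_pos (by linarith : 0 < √(2 + L))
        rw [Real.log_sqrt (by linarith)] at h2
        nlinarith
      have h2 := mul_le_mul_of_nonneg_left h1 (by linarith : (0 : ℝ) ≤ m)
      nlinarith

theorem order_upper (m n : ℕ) (hm : 1 ≤ m) (hmn : m < n) :
    n * (1 - dGH m n) ≤ 3 * (m + (m - 1) * Real.log (n / m)) := by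
  have hm0 : (1 : ℝ) ≤ m := by exact_mod_cast hm
  have hmn' : (m : ℝ) < n := by exact_mod_cast hmn
  have hL0 : 0 ≤ Real.log (n / m) :=
    Real.log_nonneg (by rw [le_div_iff₀ (by linarith)]; linarith)
  rcases hm.eq_or_lt with rfl | hm2
  · have h1 := dGH_lower_line n (by omega)
    have h2 : (n : ℝ) ≤ 2 * (n / 2 : ℕ) + 1 := by exact_mod_cast (by omega : n ≤ 2 * (n / 2) + 1)
    have h3 : n * (1 / (2 * (n / 2 : ℕ) + 1) : ℝ) ≤ 1 := by
      rw [mul_one_div, div_le_one (by positivity)]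
      exact h2
    push_cast
    nlinarith
  · have hm3 : (2 : ℝ) ≤ m := by exact_mod_cast hm2
    have h1 := one_sub_dGH_le m n hm hmn
    nlinarith

end Pool.Agent.Lib.MP_fcccf2_gt
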