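import Mathlib

set_option autoImplicit false

/-! A checker for piecewise constant maps from the unit sphere of `ℝ ^ 3` to the plane.
Coordinates are scaled by `4096`. -/

namespace Pool.Agent.Lib.MP_fcccf2_gt

/-- A box in the positive octant. -/
structure Bx where
  l0 : ℕ
  h0 : ℕ
  l1 : ℕ
  h1 : ℕ
  l2 : ℕ
  h2 : ℕ

/-- A box with the value of the map on it. -/
structure Cell where
  b : Bx
  z0 : ℕ
  z1 : ℕ

/-- A binary space partition. -/
inductive Tr where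
  | emp : Tr
  | leaf : Cell → Tr
  | node : ℕ → ℕ → Bx → Tr → Tr → Tr

/-- Membership in a box. -/
def Bx.In (b : Bx) (x y z : ℝ) : Prop :=
  (b.l0 ≤ x ∧ x ≤ b.h0) ∧ (b.l1 ≤ y ∧ y ≤ b.h1) ∧ (b.l2 ≤ z ∧ z ≤ b.h2)

/-- One coordinate of the tightening test. -/
def tight1 (l h l' h' a A b B : ℕ) : Bool :=
  (l' ≤ l || l' * l' + A * A + B * B ≤ 16777216) && (h ≤ h' || 16777216 ≤ h' * h' + a * a + b * b)

/-- The part of the sphere in `i` lies in `t`. -/
def tight (i t : Bx) : Bool :=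
  tight1 i.l0 i.h0 t.l0 t.h0 i.l1 i.h1 i.l2 i.h2 &&
    tight1 i.l1 i.h1 t.l1 t.h1 i.l0 i.h0 i.l2 i.h2 &&
    tight1 i.l2 i.h2 t.l2 t.h2 i.l0 i.h0 i.l1 i.h1

/-- Lower half of a box. -/
def Bx.lo (b : Bx) (ax p : ℕ) : Bx :=
  if ax = 0 then { b with h0 := p } else if ax = 1 then { b with h1 := p } else { b with h2 := p }

/-- Upper half of a box. -/
def Bx.hi (b : Bx) (ax p : ℕ) : Bx :=
  if ax = 0 then { b with l0 := p } else if ax = 1 then { b with l1 := p } else { b with l2 := p }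

/-- The covering test. -/
def Tr.ok : Tr → Bx → Bool
  | .emp, i => 16777216 < i.l0 * i.l0 + i.l1 * i.l1 + i.l2 * i.l2 ||
      i.h0 * i.h0 + i.h1 * i.h1 + i.h2 * i.h2 < 16777216
  | .leaf c, i => tight i c.b
  | .node ax p b l r, i => tight i b && l.ok (b.lo ax p) && r.ok (b.hi ax p)

/-- The cells of a partition. -/
def Tr.leaves : Tr → List Cell → List Cell
  | .emp, acc => acc
  | .leaf c, acc => c :: acc
  | .node _ _ _ l r, acc => l.leaves (r.leaves acc)

lemma tight1_spec {l h l' h' a A b B : ℕ} (H : tight1 l h l' h' a A b B = true) {x y z : ℝ}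
    (hx : l ≤ x ∧ x ≤ h) (hy : a ≤ y ∧ y ≤ A) (hz : b ≤ z ∧ z ≤ B)
    (hs : x ^ 2 + y ^ 2 + z ^ 2 = 16777216) : l' ≤ x ∧ x ≤ h' := by
  simp only [tight1, Bool.and_eq_true, Bool.or_eq_true, decide_eq_true_eq] at H
  have hx0 : 0 ≤ x := le_trans (Nat.cast_nonneg _) hx.1
  have hy0 : 0 ≤ y := le_trans (Nat.cast_nonneg _) hy.1
  have hz0 : 0 ≤ z := le_trans (Nat.cast_nonneg _) hz.1
  constructor
  · rcases H.1 with h1 | h1
    · exact le_trans (by exact_mod_cast h1) hx.1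
    · have h2 : (l' : ℝ) * l' + A * A + B * B ≤ 16777216 := by exact_mod_cast h1
      have h3 := mul_self_le_mul_self hy0 hy.2
      have h4 := mul_self_le_mul_self hz0 hz.2
      exact (pow_le_pow_iff_left₀ (Nat.cast_nonneg _) hx0 two_ne_zero).1 (by nlinarith)
  · rcases H.2 with h1 | h1
    · exact hx.2.trans (by exact_mod_cast h1)
    · have h2 : (16777216 : ℝ) ≤ h' * h' + a * a + b * b := by exact_mod_cast h1
      have h3 := mul_self_le_mul_self (Nat.cast_nonneg a) hy.1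
      have h4 := mul_self_le_mul_self (Nat.cast_nonneg b) hz.1
      exact (pow_le_pow_iff_left₀ hx0 (Nat.cast_nonneg _) two_ne_zero).1 (by nlinarith)

lemma tight_spec {i t : Bx} (H : tight i t = true) {x y z : ℝ} (h : i.In x y z)
    (hs : x ^ 2 + y ^ 2 + z ^ 2 = 16777216) : t.In x y z := by
  simp only [tight, Bool.and_eq_true] at H
  exact ⟨tight1_spec H.1.1 h.1 h.2.1 h.2.2 hs, tight1_spec H.1.2 h.2.1 h.1 h.2.2 (by linarith),
    tight1_spec H.2 h.2.2 h.1 h.2.1 (by linarith)⟩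

lemma split_spec (b : Bx) (ax p : ℕ) {x y z : ℝ} (h : b.In x y z) :
    (b.lo ax p).In x y z ∨ (b.hi ax p).In x y z := by
  unfold Bx.lo Bx.hi
  split_ifs
  · rcases le_total x p with h1 | h1
    · exact Or.inl ⟨⟨h.1.1, h1⟩, h.2⟩
    · exact Or.inr ⟨⟨h1, h.1.2⟩, h.2⟩
  · rcases le_total y p with h1 | h1
    · exact Or.inl ⟨h.1, ⟨h.2.1.1, h1⟩, h.2.2⟩
    · exact Or.inr ⟨h.1, ⟨h1, h.2.1.2⟩, h.2.2⟩
  · rcases le_total z p with h1 | h1
    · exact Or.inl ⟨h.1, h.2.1, h.2.2.1, h1⟩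
    · exact Or.inr ⟨h.1, h.2.1, h1, h.2.2.2⟩

lemma leaves_mono (T : Tr) : ∀ acc : List Cell, ∀ c ∈ acc, c ∈ T.leaves acc := by
  induction T with
  | emp => intro acc c hc; exact hc
  | leaf d => intro acc c hc; exact List.mem_cons_of_mem _ hc
  | node ax p b l r ihl ihr => intro acc c hc; exact ihl _ c (ihr _ c hc)

lemma ok_spec {x y z : ℝ} (hs : x ^ 2 + y ^ 2 + z ^ 2 = 16777216) (T : Tr) :
    ∀ (i : Bx) (acc : List Cell), T.ok i = true → i.In x y z →
      ∃ c ∈ T.leaves acc, c.b.In x y z := by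
  induction T with
  | emp =>
    intro i acc H h
    exfalso
    simp only [Tr.ok, Bool.or_eq_true, decide_eq_true_eq] at H
    obtain ⟨hx, hy, hz⟩ := h
    have hx0 : 0 ≤ x := le_trans (Nat.cast_nonneg _) hx.1
    have hy0 : 0 ≤ y := le_trans (Nat.cast_nonneg _) hy.1
    have hz0 : 0 ≤ z := le_trans (Nat.cast_nonneg _) hz.1
    rcases H with H | H
    · have h2 : (16777216 : ℝ) < i.l0 * i.l0 + i.l1 * i.l1 + i.l2 * i.l2 := by exact_mod_cast H
      have h3 := mul_self_le_mul_self (Nat.cast_nonneg _) hx.1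
      have h4 := mul_self_le_mul_self (Nat.cast_nonneg _) hy.1
      have h5 := mul_self_le_mul_self (Nat.cast_nonneg _) hz.1
      nlinarith
    · have h2 : (i.h0 : ℝ) * i.h0 + i.h1 * i.h1 + i.h2 * i.h2 < 16777216 := by exact_mod_cast H
      have h3 := mul_self_le_mul_self hx0 hx.2
      have h4 := mul_self_le_mul_self hy0 hy.2
      have h5 := mul_self_le_mul_self hz0 hz.2
      nlinarith
  | leaf c => intro i acc H h; exact ⟨c, List.mem_cons_self, tight_spec H h hs⟩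
  | node ax p b l r ihl ihr =>
    intro i acc H h
    simp only [Tr.ok, Bool.and_eq_true] at H
    rcases split_spec b ax p (tight_spec H.1.1 h hs) with h1 | h1
    · exact ihl _ _ H.1.2 h1
    · obtain ⟨c, hc, h2⟩ := ihr _ acc H.2 h1
      exact ⟨c, leaves_mono l _ c hc, h2⟩

/-- Upper bound for a coordinate difference. -/
def mx (s : Bool) (l h l' h' : ℕ) : ℕ := cond s ((h - l') + ((h' - l) - (h - l'))) (h + h')

/-- Lower bound for a coordinate difference. -/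
def mn (s : Bool) (l h l' h' : ℕ) : ℕ := cond s ((l - h') + (l' - h)) (l + l')

/-- The square. -/
def sq (a : ℕ) : ℕ := a * a

/-- The two distortion tests, from the squared bounds. -/
def core (mxd mnd mns ze : ℕ) : Bool :=
  (Nat.ble 33554432 ze ||
    Nat.ble (sq (2914214 * (mxd - (mxd - (67108864 - mns))) - 1000000 * (67108864 + ze)))
      (268435456000000000000 * ze)) &&
  Nat.ble (sq (ze - (67108864 + mnd))) (268435456 * mnd)

/-- The test for a pair of cells with given relative signs. -/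
def chk3 (c d : Cell) (s0 s1 s2 : Bool) : Bool :=
  core
    (sq (mx s0 c.b.l0 c.b.h0 d.b.l0 d.b.h0) + sq (mx s1 c.b.l1 c.b.h1 d.b.l1 d.b.h1) +
      sq (mx s2 c.b.l2 c.b.h2 d.b.l2 d.b.h2))
    (sq (mn s0 c.b.l0 c.b.h0 d.b.l0 d.b.h0) + sq (mn s1 c.b.l1 c.b.h1 d.b.l1 d.b.h1) +
      sq (mn s2 c.b.l2 c.b.h2 d.b.l2 d.b.h2))
    (sq (mn (!s0) c.b.l0 c.b.h0 d.b.l0 d.b.h0) + sq (mn (!s1) c.b.l1 c.b.h1 d.b.l1 d.b.h1) +
      sq (mn (!s2) c.b.l2 c.b.h2 d.b.l2 d.b.h2))
    (sq (mn s0 c.z0 c.z0 d.z0 d.z0) + sq (mn s1 c.z1 c.z1 d.z1 d.z1))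

/-- Exchange of the first two coordinates. -/
def Cell.sw (c : Cell) : Cell :=
  ⟨⟨c.b.l1, c.b.h1, c.b.l0, c.b.h0, c.b.l2, c.b.h2⟩, c.z1, c.z0⟩

/-- All eight tests for a pair. -/
def chk8 (c d : Cell) : Bool :=
  chk3 c d true true true && chk3 c d true false true && chk3 c d false true true &&
    chk3 c d false false true && chk3 c d.sw true true false && chk3 c d.sw true false false &&
    chk3 c d.sw false true false && chk3 c d.sw false false false

/-- The tests for one cell. -/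
def chk1 (c : Cell) : Bool :=
  Nat.ble 16777216 (2 * (sq c.z0 + sq c.z1)) &&
    Nat.ble (1000000 * (sq c.z0 + sq c.z1)) (2914213 * 16777216) &&
    Nat.ble (1000000 * (sq c.z0 + sq c.z1) + 2914214 * 16777216)
      (4000000 * 16777216 + 3414212 * (c.z0 * c.b.l0 + c.z1 * c.b.l1))

/-- The sign attached to a boolean. -/
def sg (s : Bool) : ℝ := cond s 1 (-1)

lemma cast_sub_ge (a b : ℕ) : (a : ℝ) - b ≤ ((a - b : ℕ) : ℝ) := by
  rcases le_total a b with h | h
  · have : (a : ℝ) ≤ b := by exact_mod_cast h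
    linarith [Nat.cast_nonneg (α := ℝ) (a - b)]
  · rw [Nat.cast_sub h]

lemma mx_spec (s : Bool) {l h l' h' : ℕ} {x y : ℝ} (hx : l ≤ x ∧ x ≤ h) (hy : l' ≤ y ∧ y ≤ h') :
    (x - sg s * y) ^ 2 ≤ (sq (mx s l h l' h') : ℕ) := by
  have hx0 : 0 ≤ x := le_trans (Nat.cast_nonneg _) hx.1
  have hy0 : 0 ≤ y := le_trans (Nat.cast_nonneg _) hy.1
  rw [sq, Nat.cast_mul, ← pow_two]
  refine sq_le_sq' ?_ ?_ <;> cases s <;> simp only [mx, sg, cond, Nat.cast_add]
  · linarith [hx.2, hy.2]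
  · have h1 := cast_sub_ge h' l
    have h2 := cast_sub_ge (h' - l) (h - l')
    linarith [hx.1, hy.2]
  · linarith [hx.2, hy.2]
  · have h1 := cast_sub_ge h l'
    have h2 := Nat.cast_nonneg (α := ℝ) ((h' - l) - (h - l'))
    linarith [hx.2, hy.1]

lemma mn_spec (s : Bool) {l h l' h' : ℕ} {x y : ℝ} (hx : l ≤ x ∧ x ≤ h) (hy : l' ≤ y ∧ y ≤ h') :
    ((sq (mn s l h l' h') : ℕ) : ℝ) ≤ (x - sg s * y) ^ 2 := by
  rw [sq, Nat.cast_mul, ← pow_two, ← sq_abs (x - sg s * y)]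
  refine pow_le_pow_left₀ (Nat.cast_nonneg _) ?_ 2
  cases s <;> simp only [mn, sg, cond, Nat.cast_add]
  · refine le_trans ?_ (le_abs_self _)
    linarith [hx.1, hy.1]
  · have hlh : l ≤ h := by exact_mod_cast hx.1.trans hx.2
    have hlh' : l' ≤ h' := by exact_mod_cast hy.1.trans hy.2
    rcases le_total l h' with h1 | h1
    · rw [Nat.sub_eq_zero_of_le h1]
      rcases le_total l' h with h2 | h2
      · rw [Nat.sub_eq_zero_of_le h2]; simp
      · rw [Nat.cast_sub h2]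
        refine le_trans ?_ (neg_le_abs _)
        simp only [Nat.cast_zero]
        linarith [hx.2, hy.1]
    · rw [Nat.cast_sub h1, Nat.sub_eq_zero_of_le (by omega : l' ≤ h)]
      refine le_trans ?_ (le_abs_self _)
      simp only [Nat.cast_zero]
      linarith [hx.1, hy.2]

lemma mn_eq (s : Bool) (a b : ℕ) : ((sq (mn s a a b b) : ℕ) : ℝ) = ((a : ℝ) - sg s * b) ^ 2 := by
  rw [sq, Nat.cast_mul, ← pow_two]
  cases s <;> simp only [mn, sg, cond, Nat.cast_add]
  · ring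
  · rcases le_total a b with h | h
    · rw [Nat.sub_eq_zero_of_le h, Nat.cast_sub h]; simp only [Nat.cast_zero]; ring
    · rw [Nat.sub_eq_zero_of_le h, Nat.cast_sub h]; simp only [Nat.cast_zero]; ring

lemma sg_not (s : Bool) : sg (!s) = -sg s := by cases s <;> simp [sg]

lemma sg_sq (s : Bool) : sg s ^ 2 = 1 := by cases s <;> simp [sg]

lemma sqrt2_bd : 1.4142135 < Real.sqrt 2 ∧ Real.sqrt 2 < 1.4142136 := by
  constructor
  · exact Real.lt_sqrt_of_sq_lt (by norm_num)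
  · exact (Real.sqrt_lt' (by norm_num)).2 (by norm_num)

lemma core_spec {mxd mnd mns ze : ℕ} (H : core mxd mnd mns ze = true) {D Z : ℝ} (hD : 0 ≤ D)
    (hZ : 0 ≤ Z) (h1 : D ^ 2 ≤ mxd) (h2 : mnd ≤ D ^ 2) (h3 : D ^ 2 + mns ≤ 67108864)
    (h4 : Z ^ 2 = ze) : D ≤ (2 - Real.sqrt 2) * (8192 + Z) ∧ Z ≤ 8192 + D := by
  simp only [core, Bool.and_eq_true, Bool.or_eq_true, Nat.ble_eq, sq] at H
  obtain ⟨hs1, hs2⟩ := sqrt2_bd
  have hs : Real.sqrt 2 ^ 2 = 2 := Real.sq_sqrt (by norm_num)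
  set r := Real.sqrt 2
  have hmns : (0 : ℝ) ≤ mns := Nat.cast_nonneg _
  constructor
  · rcases H.1 with h5 | h5
    · have h6 : (33554432 : ℝ) ≤ ze := by exact_mod_cast h5
      have h7 : 4096 * r ≤ Z :=
        (pow_le_pow_iff_left₀ (by linarith) hZ two_ne_zero).1 (by nlinarith)
      have h8 : D ≤ 8192 := (pow_le_pow_iff_left₀ hD (by norm_num) two_ne_zero).1 (by linarith)
      nlinarith
    · generalize hd : mxd - (mxd - (67108864 - mns)) = d2 at h5
      have hd2 : D ^ 2 ≤ d2 := by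
        rcases le_total mxd (67108864 - mns) with h | h
        · rw [← hd, Nat.sub_eq_zero_of_le h, Nat.sub_zero]; exact h1
        · rw [← hd, Nat.sub_sub_self h]
          have := cast_sub_ge 67108864 mns
          push_cast at this
          linarith
      have h6 := cast_sub_ge (2914214 * d2) (1000000 * (67108864 + ze))
      generalize 2914214 * d2 - 1000000 * (67108864 + ze) = X at h5 h6
      have h7 : (X : ℝ) * X ≤ 268435456000000000000 * ze := by exact_mod_cast h5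
      have h8 : (X : ℝ) ≤ 16384000000 * Z :=
        (pow_le_pow_iff_left₀ (Nat.cast_nonneg _) (by positivity) two_ne_zero).1 (by nlinarith)
      push_cast at h6
      have h9 : 2.914214 * D ^ 2 ≤ (8192 + Z) ^ 2 := by nlinarith
      have h10 : 1 ≤ 2.914214 * (2 - r) ^ 2 := by nlinarith
      refine (pow_le_pow_iff_left₀ hD (mul_nonneg (by linarith) (by linarith)) two_ne_zero).1 ?_
      rw [mul_pow]
      have h11 := mul_le_mul_of_nonneg_left h9 (sq_nonneg (2 - r))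
      nlinarith [sq_nonneg D]
  · have h6 := cast_sub_ge ze (67108864 + mnd)
    have h5 := H.2
    generalize ze - (67108864 + mnd) = Y at h5 h6
    have h7 : (Y : ℝ) * Y ≤ 268435456 * mnd := by exact_mod_cast h5
    have h8 : (Y : ℝ) ≤ 16384 * D :=
      (pow_le_pow_iff_left₀ (Nat.cast_nonneg _) (by positivity) two_ne_zero).1 (by nlinarith)
    push_cast at h6
    exact (pow_le_pow_iff_left₀ hZ (by linarith) two_ne_zero).1 (by nlinarith)

lemma chk3_spec {c d : Cell} {s0 s1 s2 : Bool} (H : chk3 c d s0 s1 s2 = true) {x y z u v w D Z : ℝ}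
    (hc : c.b.In x y z) (hd : d.b.In u v w) (h1 : x ^ 2 + y ^ 2 + z ^ 2 = 16777216)
    (h2 : u ^ 2 + v ^ 2 + w ^ 2 = 16777216) (hD : 0 ≤ D) (hZ : 0 ≤ Z)
    (eD : D ^ 2 = (x - sg s0 * u) ^ 2 + (y - sg s1 * v) ^ 2 + (z - sg s2 * w) ^ 2)
    (eZ : Z ^ 2 = ((c.z0 : ℝ) - sg s0 * d.z0) ^ 2 + ((c.z1 : ℝ) - sg s1 * d.z1) ^ 2) :
    D ≤ (2 - Real.sqrt 2) * (8192 + Z) ∧ Z ≤ 8192 + D := by
  refine core_spec H hD hZ ?_ ?_ ?_ ?_
  · push_cast
    linarith [mx_spec s0 hc.1 hd.1, mx_spec s1 hc.2.1 hd.2.1, mx_spec s2 hc.2.2 hd.2.2]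
  · push_cast
    linarith [mn_spec s0 hc.1 hd.1, mn_spec s1 hc.2.1 hd.2.1, mn_spec s2 hc.2.2 hd.2.2]
  · push_cast
    have a0 := mn_spec (!s0) hc.1 hd.1
    have a1 := mn_spec (!s1) hc.2.1 hd.2.1
    have a2 := mn_spec (!s2) hc.2.2 hd.2.2
    rw [sg_not] at a0 a1 a2
    have e : ∀ (s : Bool) (a b : ℝ), (a - sg s * b) ^ 2 + (a - -sg s * b) ^ 2 =
        2 * a ^ 2 + 2 * b ^ 2 := by
      intro s a b
      have := sg_sq s
      linear_combination 2 * b ^ 2 * this
    linarith [e s0 x u, e s1 y v, e s2 z w]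
  · push_cast
    rw [mn_eq, mn_eq, eZ]

lemma chk8_spec {c d : Cell} (H : chk8 c d = true) (s0 s1 : Bool) :
    chk3 c d s0 s1 true = true ∧ chk3 c d.sw s0 s1 false = true := by
  simp only [chk8, Bool.and_eq_true] at H
  cases s0 <;> cases s1 <;> tauto

end Pool.Agent.Lib.MP_fcccf2_gt
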