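import Mathlib
import Pool.Agent.Lib.MP_fcccf2_gt.GH

set_option autoImplicit false

/-! The distance between the segment and the disc is `2 / 3`. -/

namespace Pool.Agent.Lib.MP_fcccf2_gt

lemma dist_sq1 (a b : E 1) : dist a b = |a 0 - b 0| := by
  simp [EuclideanSpace.dist_eq, Real.sqrt_sq_eq_abs, Real.dist_eq]

lemma dist_sq2 (a b : E 2) : dist a b ^ 2 = (a 0 - b 0) ^ 2 + (a 1 - b 1) ^ 2 := by
  rw [EuclideanSpace.dist_eq, Real.sq_sqrt (by positivity)]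
  simp [Fin.sum_univ_two, Real.dist_eq]

lemma norm_sq2 (a : E 2) : ‖a‖ ^ 2 = a 0 ^ 2 + a 1 ^ 2 := by
  rw [EuclideanSpace.norm_eq, Real.sq_sqrt (by positivity)]
  simp [Fin.sum_univ_two]

/-- The segment inside the disc. -/
noncomputable def inc12 : E 1 →ₗᵢ[ℝ] E 2 where
  toFun w := !₂[w 0, 0]
  map_add' v w := by ext i; fin_cases i <;> simp
  map_smul' c w := by ext i; fin_cases i <;> simp
  norm_map' w := by simp [EuclideanSpace.norm_eq, Fin.sum_univ_two]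

/-- The height profile. -/
noncomputable def prof (t : ℝ) : ℝ := (1 + t) / 3 + (1 - t ^ 2) / 15

lemma prof_bd (t : ℝ) (h : t ^ 2 ≤ 1) : 0 ≤ prof t ∧ prof t ≤ 2 / 3 := by
  have h1 : -1 ≤ t := by nlinarith
  have h2 : t ≤ 1 := by nlinarith
  unfold prof
  constructor <;> nlinarith

lemma same_side (u t v s d : ℝ) (hu : u ^ 2 + t ^ 2 = 1) (hv : v ^ 2 + s ^ 2 = 1) (huv : 0 ≤ u * v)
    (hd : 0 ≤ d) (hd2 : d ^ 2 = (u - v) ^ 2 + (t - s) ^ 2) : d ≤ 4 / 3 + |prof t - prof s| := by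
  have e0 : u ^ 2 * v ^ 2 = (1 - t ^ 2) * (1 - s ^ 2) := by
    rw [show u ^ 2 = 1 - t ^ 2 by linarith, show v ^ 2 = 1 - s ^ 2 by linarith]
  have eD : d ^ 2 = 2 * (1 - t * s - u * v) := by nlinarith
  have hD0 : 0 ≤ 1 - t * s - u * v := by nlinarith [sq_nonneg d]
  have hq0 : 0 ≤ 1 + t * s + u * v := by nlinarith [sq_nonneg (t + s), sq_nonneg (u + v)]
  have hp0 : 0 ≤ 1 + t * s - u * v := by nlinarith [sq_nonneg (t + s), sq_nonneg (u - v)]
  have h1 : 1 - t * s - u * v ≤ |t - s| := by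
    refine Real.le_sqrt_of_sq_le ?_ |>.trans (le_of_eq (Real.sqrt_sq_eq_abs _))
    have : (t - s) ^ 2 = (1 - t * s - u * v) * (1 - t * s + u * v) := by nlinarith
    nlinarith
  have h2 : t + s ≤ 1 + t * s + u * v := by
    refine (le_abs_self _).trans (abs_le_of_sq_le_sq' ?_ hq0 |> fun h => abs_le.2 h)
    have : (t + s) ^ 2 = (1 + t * s - u * v) * (1 + t * s + u * v) := by nlinarith
    nlinarith
  have e1 : prof t - prof s = (t - s) * (1 / 3 - (t + s) / 15) := by unfold prof; ring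
  have hd2' : d ≤ 2 := by nlinarith
  set D := 1 - t * s - u * v with hD
  have h3 : (3 + D) / 15 ≤ 1 / 3 - (t + s) / 15 := by linarith
  have h4 : D * ((3 + D) / 15) ≤ |prof t - prof s| := by
    rw [e1, abs_mul, abs_of_nonneg (show 0 ≤ 1 / 3 - (t + s) / 15 by linarith)]
    exact mul_le_mul h1 h3 (by linarith) (abs_nonneg _)
  have h5 : D = d ^ 2 / 2 := by linarith
  rw [h5] at h4
  have h6 : 0 ≤ (2 - d) * (40 - 10 * d - 2 * d ^ 2 - d ^ 3) :=
    mul_nonneg (by linarith) (by nlinarith)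
  nlinarith

lemma opp_side (u t v s d : ℝ) (hu : u ^ 2 + t ^ 2 = 1) (hv : v ^ 2 + s ^ 2 = 1)
    (hd : 0 ≤ d) (hd2 : d ^ 2 = (u - v) ^ 2 + (t - s) ^ 2) : d ≤ 4 / 3 + (prof t + prof s) := by
  have e0 : u ^ 2 * v ^ 2 = (1 - t ^ 2) * (1 - s ^ 2) := by
    rw [show u ^ 2 = 1 - t ^ 2 by linarith, show v ^ 2 = 1 - s ^ 2 by linarith]
  have hp0 : 0 ≤ 1 + t * s + u * v := by nlinarith [sq_nonneg (t + s), sq_nonneg (u + v)]
  have hq0 : 0 ≤ 1 + t * s - u * v := by nlinarith [sq_nonneg (t + s), sq_nonneg (u - v)]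
  have hq2 : 1 + t * s - u * v ≤ 2 := by nlinarith [sq_nonneg (t - s), sq_nonneg (u + v)]
  have eD : d ^ 2 = 4 - 2 * (1 + t * s + u * v) := by nlinarith
  have ew : (t + s) ^ 2 = (1 + t * s + u * v) * (1 + t * s - u * v) := by nlinarith
  have eg : prof t + prof s = 2 / 3 + (t + s) / 3 + ((1 + t * s + u * v) + (1 + t * s - u * v) -
      (t + s) ^ 2) / 15 := by unfold prof; ring
  generalize 1 + t * s + u * v = p at *
  generalize 1 + t * s - u * v = q at *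
  have h1 : -(13 * p + 2 * q) ≤ 10 * (t + s) := by
    refine (abs_le_of_sq_le_sq' ?_ (by linarith)).1
    nlinarith [sq_nonneg (13 * p - 2 * q), mul_nonneg hp0 hq0]
  have h2 : d ≤ 2 - p / 2 := by nlinarith
  have h3 : p * q ≤ p * 2 := mul_le_mul_of_nonneg_left hq2 hp0
  rw [eg, ew]
  linarith

theorem dGH_one_two_le : dGH 1 2 ≤ 2 / 3 := by
  let sg : E 2 → ℝ := fun a => if 0 ≤ a 0 then 1 else -1
  have hsg : ∀ a, (sg a = 1 ∧ 0 ≤ a 0) ∨ (sg a = -1 ∧ a 0 ≤ 0) := by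
    intro a
    simp only [sg]
    split_ifs with h
    · exact Or.inl ⟨rfl, h⟩
    · exact Or.inr ⟨rfl, (not_le.1 h).le⟩
  have hu : ∀ a : E 2, ‖a‖ = 1 → a 0 ^ 2 + a 1 ^ 2 = 1 := fun a ha => by
    rw [← norm_sq2, ha]; norm_num
  have hp : ∀ a : E 2, ‖a‖ = 1 → 0 ≤ prof (a 1) ∧ prof (a 1) ≤ 2 / 3 := fun a ha =>
    prof_bd _ (by nlinarith [hu a ha, sq_nonneg (a 0)])
  have h := dGH_le_of_sphere 1 2 inc12 (fun a => !₂[sg a * prof (a 1)]) (4 / 3) 0 (by norm_num)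
    le_rfl (by norm_num) ?_ ?_ ?_ ?_
  · linarith
  · intro a b ha hb
    rw [dist_sq1]
    simp only [Matrix.cons_val_zero]
    have h1 := hp a ha
    have h2 := hp b hb
    have hs := fun h => same_side _ _ _ _ _ (hu a ha) (hu b hb) h dist_nonneg (dist_sq2 a b)
    have ho := opp_side _ _ _ _ _ (hu a ha) (hu b hb) dist_nonneg (dist_sq2 a b)
    rcases hsg a with ⟨e1, h3⟩ | ⟨e1, h3⟩ <;> rcases hsg b with ⟨e2, h4⟩ | ⟨e2, h4⟩ <;>
      rw [e1, e2]
    · simpa using hs (mul_nonneg h3 h4)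
    · rw [abs_of_nonneg (by linarith)]; linarith
    · rw [abs_of_nonpos (by linarith)]; linarith
    · rw [← abs_neg]
      have := hs (mul_nonneg_of_nonpos_of_nonpos h3 h4)
      rwa [show -(-1 * prof (a 1) - -1 * prof (b 1)) = prof (a 1) - prof (b 1) by ring]
  · intro a b ha hb
    rw [dist_sq1]
    simp only [Matrix.cons_val_zero]
    have h1 := hp a ha
    have h2 := hp b hb
    rw [zero_mul, add_zero, abs_le]
    rcases hsg a with ⟨e1, -⟩ | ⟨e1, -⟩ <;> rcases hsg b with ⟨e2, -⟩ | ⟨e2, -⟩ <;>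
      rw [e1, e2] <;> constructor <;> linarith
  · intro a ha
    refine ⟨by linarith [norm_nonneg (!₂[sg a * prof (a 1)] : E 1)], ?_⟩
    rw [← dist_zero_right, dist_sq1]
    simp only [Matrix.cons_val_zero, PiLp.zero_apply, sub_zero]
    have h1 := hp a ha
    rw [abs_le]
    rcases hsg a with ⟨e1, -⟩ | ⟨e1, -⟩ <;> rw [e1] <;> constructor <;> linarith
  · intro a ha
    refine (pow_le_pow_iff_left₀ dist_nonneg (by norm_num) two_ne_zero).1 ?_
    rw [dist_sq2]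
    have e1 : inc12 (!₂[sg a * prof (a 1)]) 0 = sg a * prof (a 1) := rfl
    have e2 : inc12 (!₂[sg a * prof (a 1)]) 1 = 0 := rfl
    rw [e1, e2]
    have h1 := hp a ha
    have h2 := hu a ha
    rcases hsg a with ⟨e1, h3⟩ | ⟨e1, h3⟩ <;> rw [e1] <;> nlinarith

end Pool.Agent.Lib.MP_fcccf2_gt
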