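import Mathlib
import Pool.Agent.Lib.MP_fcccf2_gt.Data

set_option autoImplicit false

/-! Kernel verification of the pair tests, in blocks of ten cells. -/

namespace Pool.Agent.Lib.MP_fcccf2_gt

lemma rows0 : ((cells.drop 0).take 10).all (fun c => cells.all (chk8 c)) = true := by
  decide +kernel

lemma rows1 : ((cells.drop 10).take 10).all (fun c => cells.all (chk8 c)) = true := by
  decide +kernel

lemma rows2 : ((cells.drop 20).take 10).all (fun c => cells.all (chk8 c)) = true := by
  decide +kernel

lemma rows3 : ((cells.drop 30).take 10).all (fun c => cells.all (chk8 c)) = true := by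
  decide +kernel

lemma rows4 : ((cells.drop 40).take 10).all (fun c => cells.all (chk8 c)) = true := by
  decide +kernel

lemma rows5 : ((cells.drop 50).take 10).all (fun c => cells.all (chk8 c)) = true := by
  decide +kernel

lemma rows6 : ((cells.drop 60).take 10).all (fun c => cells.all (chk8 c)) = true := by
  decide +kernel

lemma rows7 : ((cells.drop 70).take 10).all (fun c => cells.all (chk8 c)) = true := by
  decide +kernel

lemma rows8 : ((cells.drop 80).take 10).all (fun c => cells.all (chk8 c)) = true := by
  decide +kernel

end Pool.Agent.Lib.MP_fcccf2_gt
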