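import Mathlib
import Pool.Agent.Lib.MP_fcccf2_gt.Data

set_option autoImplicit false

/-! Kernel verification of the pair tests, in blocks of ten cells. -/

namespace Pool.Agent.Lib.MP_fcccf2_gt

lemma rows9 : ((cells.drop 90).take 10).all (fun c => cells.all (chk8 c)) = true := by
  decide +kernel

lemma rows10 : ((cells.drop 100).take 10).all (fun c => cells.all (chk8 c)) = true := by
  decide +kernel

lemma rows11 : ((cells.drop 110).take 10).all (fun c => cells.all (chk8 c)) = true := by
  decide +kernel

lemma rows12 : ((cells.drop 120).take 10).all (fun c => cells.all (chk8 c)) = true := by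
  decide +kernel

lemma rows13 : ((cells.drop 130).take 10).all (fun c => cells.all (chk8 c)) = true := by
  decide +kernel

lemma rows14 : ((cells.drop 140).take 10).all (fun c => cells.all (chk8 c)) = true := by
  decide +kernel

lemma rows15 : ((cells.drop 150).take 10).all (fun c => cells.all (chk8 c)) = true := by
  decide +kernel

lemma rows16 : ((cells.drop 160).take 10).all (fun c => cells.all (chk8 c)) = true := by
  decide +kernel

end Pool.Agent.Lib.MP_fcccf2_gt
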