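import Mathlib
import Pool.Agent.Lib.MP_fcccf2_gt.OneTwo
import Pool.Agent.Lib.MP_fcccf2_gt.RowsA
import Pool.Agent.Lib.MP_fcccf2_gt.RowsB

set_option autoImplicit false

/-! The distance between the disc and the three dimensional ball is at most `2 - √2`. -/

namespace Pool.Agent.Lib.MP_fcccf2_gt

lemma all_step {α : Type} (l : List α) (p : α → Bool) (a : ℕ)
    (h1 : ((l.drop a).take 10).all p = true) (h2 : (l.drop (a + 10)).all p = true) :
    (l.drop a).all p = true := by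
  rw [← List.take_append_drop 10 (l.drop a), List.all_append, h1, List.drop_drop, h2]
  rfl

lemma cells_end : (cells.drop 170).all (fun c => cells.all (chk8 c)) = true := by decide +kernel

lemma cells_ok8 : (cells.drop 0).all (fun c => cells.all (chk8 c)) = true :=
  (all_step _ _ 0 rows0 (all_step _ _ 10 rows1 (all_step _ _ 20 rows2 (all_step _ _ 30 rows3
    (all_step _ _ 40 rows4 (all_step _ _ 50 rows5 (all_step _ _ 60 rows6 (all_step _ _ 70
    rows7 (all_step _ _ 80 rows8 (all_step _ _ 90 rows9 (all_step _ _ 100 rows10 (all_step _ _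
    110 rows11 (all_step _ _ 120 rows12 (all_step _ _ 130 rows13 (all_step _ _ 140 rows14
    (all_step _ _ 150 rows15 (all_step _ _ 160 rows16 cells_end)))))))))))))))))

/-- The conclusion of the pair test. -/
def Pr (c d : Cell) (s0 s1 s2 : Bool) : Prop :=
  ∀ x y z u v w D Z : ℝ, c.b.In x y z → d.b.In u v w → x ^ 2 + y ^ 2 + z ^ 2 = 16777216 →
    u ^ 2 + v ^ 2 + w ^ 2 = 16777216 → 0 ≤ D → 0 ≤ Z →
    D ^ 2 = (x - sg s0 * u) ^ 2 + (y - sg s1 * v) ^ 2 + (z - sg s2 * w) ^ 2 →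
    Z ^ 2 = ((c.z0 : ℝ) - sg s0 * d.z0) ^ 2 + ((c.z1 : ℝ) - sg s1 * d.z1) ^ 2 →
    D ≤ (2 - Real.sqrt 2) * (8192 + Z) ∧ Z ≤ 8192 + D

lemma sg_symm (s : Bool) (a b : ℝ) : (a - sg s * b) ^ 2 = (b - sg s * a) ^ 2 := by
  cases s <;> simp only [sg, cond] <;> ring

lemma Pr.symm {c d : Cell} {s0 s1 s2 : Bool} (h : Pr c d s0 s1 s2) : Pr d c s0 s1 s2 := by
  intro x y z u v w D Z h1 h2 h3 h4 h5 h6 h7 h8
  refine h u v w x y z D Z h2 h1 h4 h3 h5 h6 ?_ ?_
  · rw [h7, sg_symm s0, sg_symm s1, sg_symm s2]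
  · rw [h8, sg_symm s0, sg_symm s1]

lemma Pr.swap {c d : Cell} {s0 s1 s2 : Bool} (h : Pr c.sw d.sw s1 s0 s2) : Pr c d s0 s1 s2 := by
  intro x y z u v w D Z h1 h2 h3 h4 h5 h6 h7 h8
  refine h y x z v u w D Z ⟨h1.2.1, h1.1, h1.2.2⟩ ⟨h2.2.1, h2.1, h2.2.2⟩ (by linarith)
    (by linarith) h5 h6 (by linarith) ?_
  rw [h8, add_comm]
  rfl

lemma pr_cells {c d : Cell} (hc : c ∈ cells) (hd : d ∈ cells) (s0 s1 : Bool) :
    Pr c d s0 s1 true ∧ Pr c d.sw s0 s1 false := by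
  have h := chk8_spec (List.all_eq_true.1 (List.all_eq_true.1 cells_ok8 c hc) d hd) s0 s1
  exact ⟨fun _ _ _ _ _ _ _ _ => chk3_spec h.1, fun _ _ _ _ _ _ _ _ => chk3_spec h.2⟩

lemma pr_all {c d : Cell} {t t' : Bool} (hc : cond t c c.sw ∈ cells) (hd : cond t' d d.sw ∈ cells)
    (s0 s1 : Bool) : Pr c d s0 s1 (t == t') := by
  cases t <;> cases t'
  · exact (pr_cells hc hd s1 s0).1.swap
  · exact (pr_cells hd hc s0 s1).2.symm
  · exact (pr_cells hc hd s0 s1).2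
  · exact (pr_cells hc hd s0 s1).1

lemma chk1_sw (c : Cell) (h : chk1 c.sw = true) : chk1 c = true := by
  simp only [chk1, Cell.sw, Bool.and_eq_true, Nat.ble_eq] at h ⊢
  rw [add_comm (sq c.z0), add_comm (c.z0 * _)]
  exact h

lemma chk1_all {c : Cell} {t : Bool} (hc : cond t c c.sw ∈ cells) : chk1 c = true := by
  have h := List.all_eq_true.1 cells_ok1 _ hc
  cases t
  · exact chk1_sw c h
  · exact h

lemma dist_sq3 (a b : E 3) :
    dist a b ^ 2 = (a 0 - b 0) ^ 2 + (a 1 - b 1) ^ 2 + (a 2 - b 2) ^ 2 := by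
  rw [EuclideanSpace.dist_eq, Real.sq_sqrt (by positivity)]
  simp [Fin.sum_univ_three, Real.dist_eq]

lemma norm_sq3 (a : E 3) : ‖a‖ ^ 2 = a 0 ^ 2 + a 1 ^ 2 + a 2 ^ 2 := by
  rw [EuclideanSpace.norm_eq, Real.sq_sqrt (by positivity)]
  simp [Fin.sum_univ_three]

/-- The disc inside the ball. -/
noncomputable def inc23 : E 2 →ₗᵢ[ℝ] E 3 where
  toFun w := !₂[w 0, w 1, 0]
  map_add' v w := by ext i; fin_cases i <;> simp
  map_smul' c w := by ext i; fin_cases i <;> simp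
  norm_map' w := by simp [EuclideanSpace.norm_eq, Fin.sum_univ_two, Fin.sum_univ_three]

/-- The sign of a real number, as a boolean. -/
noncomputable def sb (x : ℝ) : Bool := decide (0 ≤ x)

lemma sb_abs (x : ℝ) : x = sg (sb x) * |x| := by
  unfold sb
  by_cases h : 0 ≤ x
  · simp [h, sg, abs_of_nonneg h]
  · simp [h, sg, abs_of_neg (not_le.1 h)]

lemma sg_diff (s t : Bool) (a b : ℝ) : (sg s * a - sg t * b) ^ 2 = (a - sg (s == t) * b) ^ 2 := by
  cases s <;> cases t <;> simp [sg] <;> ring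

lemma sphere_scaled (a : E 3) (ha : ‖a‖ = 1) :
    (4096 * |a 0|) ^ 2 + (4096 * |a 1|) ^ 2 + (4096 * |a 2|) ^ 2 = 16777216 := by
  have := norm_sq3 a
  rw [ha] at this
  simp only [mul_pow, sq_abs]
  linarith

lemma exists_cell (a : E 3) : ∃ c : Cell, ‖a‖ = 1 →
    c.b.In (4096 * |a 0|) (4096 * |a 1|) (4096 * |a 2|) ∧ cond (sb (a 2)) c c.sw ∈ cells := by
  by_cases ha : ‖a‖ = 1
  swap
  · exact ⟨⟨⟨0, 0, 0, 0, 0, 0⟩, 0, 0⟩, fun h => absurd h ha⟩
  have hs := sphere_scaled a ha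
  have h0 := abs_nonneg (a 0)
  have h1 := abs_nonneg (a 1)
  have h2 := abs_nonneg (a 2)
  have g0 : 4096 * |a 0| ≤ 4096 := by nlinarith
  have g1 : 4096 * |a 1| ≤ 4096 := by nlinarith
  have g2 : 4096 * |a 2| ≤ 4096 := by nlinarith
  cases h : sb (a 2)
  · obtain ⟨c, hc, hin⟩ := ok_spec (x := 4096 * |a 1|) (y := 4096 * |a 0|) (z := 4096 * |a 2|)
      (by linarith) tree _ [] tree_ok (by
        simp only [Bx.In]; push_cast; refine ⟨⟨?_, ?_⟩, ⟨?_, ?_⟩, ?_, ?_⟩ <;> linarith)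
    exact ⟨c.sw, fun _ => ⟨⟨hin.2.1, hin.1, hin.2.2⟩, hc⟩⟩
  · obtain ⟨c, hc, hin⟩ := ok_spec hs tree _ [] tree_ok (by
        simp only [Bx.In]; push_cast; refine ⟨⟨?_, ?_⟩, ⟨?_, ?_⟩, ?_, ?_⟩ <;> linarith)
    exact ⟨c, fun _ => ⟨hin, hc⟩⟩

theorem dGH_two_three_le : dGH 2 3 ≤ 2 - Real.sqrt 2 := by
  choose C hC using exists_cell
  have hs1 : 1.414213562 < Real.sqrt 2 := Real.lt_sqrt_of_sq_lt (by norm_num)
  have hs2 : Real.sqrt 2 < 1.414213563 := (Real.sqrt_lt' (by norm_num)).2 (by norm_num)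
  have hs : Real.sqrt 2 ^ 2 = 2 := Real.sq_sqrt (by norm_num)
  set ρ := 2 - Real.sqrt 2 with hρ
  have hρ0 : 0 < ρ := by linarith
  let G : E 3 → E 2 := fun a => !₂[sg (sb (a 0)) * (C a).z0, sg (sb (a 1)) * (C a).z1]
  let F : E 3 → E 2 := fun a => (ρ / 4096) • G a
  have hFd : ∀ a b, dist (F a) (F b) = ρ / 4096 * dist (G a) (G b) := by
    intro a b
    simp only [F]
    rw [dist_smul₀, Real.norm_of_nonneg (by positivity)]
  have hpair : ∀ a b : E 3, ‖a‖ = 1 → ‖b‖ = 1 →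
      4096 * dist a b ≤ ρ * (8192 + dist (G a) (G b)) ∧
        dist (G a) (G b) ≤ 8192 + 4096 * dist a b := by
    intro a b ha hb
    refine pr_all (hC a ha).2 (hC b hb).2 (sb (a 0) == sb (b 0)) (sb (a 1) == sb (b 1))
      _ _ _ _ _ _ _ _ (hC a ha).1 (hC b hb).1 (sphere_scaled a ha) (sphere_scaled b hb)
      (by positivity) dist_nonneg ?_ ?_
    · rw [← sg_diff, ← sg_diff, ← sg_diff, mul_pow, dist_sq3]
      have e : ∀ x y : ℝ, (sg (sb x) * (4096 * |x|) - sg (sb y) * (4096 * |y|)) ^ 2 =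
          4096 ^ 2 * (x - y) ^ 2 := by
        intro x y
        rw [mul_left_comm, ← sb_abs, mul_left_comm, ← sb_abs]
        ring
      rw [e, e, e]
      ring
    · rw [← sg_diff, ← sg_diff, dist_sq2]
      rfl
  have hone : ∀ a : E 3, ‖a‖ = 1 → 16777216 ≤ 2 * ‖G a‖ ^ 2 ∧
      1000000 * ‖G a‖ ^ 2 ≤ 2914213 * 16777216 ∧
      1000000 * ‖G a‖ ^ 2 + 2914214 * 16777216 ≤
        4000000 * 16777216 + 3414212 * (4096 * (G a 0 * a 0 + G a 1 * a 1)) ∧
      0 ≤ G a 0 * a 0 + G a 1 * a 1 := by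
    intro a ha
    have h := chk1_all (hC a ha).2
    simp only [chk1, Bool.and_eq_true, Nat.ble_eq, sq] at h
    obtain ⟨⟨h1, h2⟩, h3⟩ := h
    have e1 : ‖G a‖ ^ 2 = ((C a).z0 : ℝ) * (C a).z0 + (C a).z1 * (C a).z1 := by
      rw [norm_sq2]
      simp only [G, Matrix.cons_val_zero, Matrix.cons_val_one, mul_pow, sg_sq]
      ring
    have e2 : G a 0 * a 0 + G a 1 * a 1 = (C a).z0 * |a 0| + (C a).z1 * |a 1| := by
      have f0 := sb_abs (a 0)
      have f1 := sb_abs (a 1)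
      have g0 := sg_sq (sb (a 0))
      have g1 := sg_sq (sb (a 1))
      simp only [G, Matrix.cons_val_zero, Matrix.cons_val_one]
      linear_combination (sg (sb (a 0)) * (C a).z0) * f0 + (sg (sb (a 1)) * (C a).z1) * f1 +
        ((C a).z0 * |a 0|) * g0 + ((C a).z1 * |a 1|) * g1
    have k1 : (16777216 : ℝ) ≤ 2 * (((C a).z0 : ℝ) * (C a).z0 + (C a).z1 * (C a).z1) := by
      exact_mod_cast h1
    have k2 : 1000000 * (((C a).z0 : ℝ) * (C a).z0 + (C a).z1 * (C a).z1) ≤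
        2914213 * 16777216 := by exact_mod_cast h2
    have k3 : 1000000 * (((C a).z0 : ℝ) * (C a).z0 + (C a).z1 * (C a).z1) + 2914214 * 16777216 ≤
        4000000 * 16777216 + 3414212 * ((C a).z0 * (C a).b.l0 + (C a).z1 * (C a).b.l1) := by
      exact_mod_cast h3
    have m0 := mul_le_mul_of_nonneg_left (hC a ha).1.1.1 (Nat.cast_nonneg (α := ℝ) (C a).z0)
    have m1 := mul_le_mul_of_nonneg_left (hC a ha).1.2.1.1 (Nat.cast_nonneg (α := ℝ) (C a).z1)
    rw [e1, e2]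
    refine ⟨k1, k2, by linarith, by positivity⟩
  have hFn : ∀ a, ‖F a‖ = ρ / 4096 * ‖G a‖ := by
    intro a
    simp only [F]
    rw [norm_smul, Real.norm_of_nonneg (by positivity)]
  have hρ2 : ρ ^ 2 = 6 - 4 * Real.sqrt 2 := by rw [hρ]; nlinarith
  have h := dGH_le_of_sphere 2 3 inc23 F (2 * ρ) ρ (by linarith) hρ0.le le_rfl ?_ ?_ ?_ ?_
  · linarith
  · intro a b ha hb
    rw [hFd]
    linarith [(hpair a b ha hb).1]
  · intro a b ha hb
    rw [hFd]
    have := mul_le_mul_of_nonneg_left (hpair a b ha hb).2 hρ0.le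
    linarith
  · intro a ha
    obtain ⟨h1, h2, -, -⟩ := hone a ha
    rw [hFn]
    have hn := norm_nonneg (G a)
    constructor
    · have h3 : 2048 * Real.sqrt 2 ≤ ‖G a‖ :=
        (pow_le_pow_iff_left₀ (by positivity) hn two_ne_zero).1 (by nlinarith)
      have := mul_le_mul_of_nonneg_left h3 hρ0.le
      nlinarith
    · refine (pow_le_pow_iff_left₀ (by positivity) (by norm_num) two_ne_zero).1 ?_
      rw [mul_pow, div_pow, hρ2]
      nlinarith [sq_nonneg ‖G a‖]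
  · intro a ha
    obtain ⟨-, -, h3, h4⟩ := hone a ha
    refine (pow_le_pow_iff_left₀ dist_nonneg (by positivity) two_ne_zero).1 ?_
    have e0 : inc23 (F a) 0 = ρ / 4096 * G a 0 := rfl
    have e1 : inc23 (F a) 1 = ρ / 4096 * G a 1 := rfl
    have e2 : inc23 (F a) 2 = 0 := rfl
    have e3 := norm_sq3 a
    rw [ha] at e3
    rw [dist_sq3, e0, e1, e2]
    rw [norm_sq2] at h3
    generalize G a 0 = g0 at h3 h4
    generalize G a 1 = g1 at h3 h4
    have e4 : (ρ / 4096 * g0 - a 0) ^ 2 + (ρ / 4096 * g1 - a 1) ^ 2 + (0 - a 2) ^ 2 =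
        ρ ^ 2 * ((g0 ^ 2 + g1 ^ 2) / 16777216) - 2 * ρ * ((g0 * a 0 + g1 * a 1) / 4096) + 1 := by
      linear_combination (-1 : ℝ) * e3
    rw [e4]
    have h5 : (g0 ^ 2 + g1 ^ 2) / 16777216 ≤
        1.085786 + 3.414212 * ((g0 * a 0 + g1 * a 1) / 4096) := by linarith
    have h6 : 0 ≤ (g0 * a 0 + g1 * a 1) / 4096 := by positivity
    generalize (g0 * a 0 + g1 * a 1) / 4096 = p at h5 h6
    have h7 := mul_le_mul_of_nonneg_left h5 (sq_nonneg ρ)
    have h8 : ρ ^ 2 * 3.414212 ≤ 2 * ρ := by rw [hρ2]; linarith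
    have h9 := mul_le_mul_of_nonneg_right h8 h6
    have h10 : ρ ^ 2 * 1.085786 + 1 ≤ 4 * ρ ^ 2 := by rw [hρ2]; linarith
    nlinarith

end Pool.Agent.Lib.MP_fcccf2_gt
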